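import Pool.Agent.Work.MP_6dc561_nt.Defs

/-!
# Points on quadratic twists over finite fields
-/

open Polynomial

namespace Pool.Agent.Work.MP_6dc561_nt

section

variable {k : Type*} [Field k]

/-- If `c = u²` with `u` in the extension of degree `n`, the twist has the same number of points. -/
theorem numPoints_of_sqrt (n : ℕ) (c : k) (f : k[X]) (u : AlgebraicClosure k) (hu0 : u ≠ 0)
    (hu : u ^ 2 = algebraMap k (AlgebraicClosure k) c) (hun : u ^ (Nat.card k ^ n) = u) :
    numPoints k n c f = numPoints k n 1 f := by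
  unfold numPoints
  congr 1
  · have himg : affinePoints k n 1 f =
        (fun P : AlgebraicClosure k × AlgebraicClosure k => (P.1, u * P.2)) ''
          affinePoints k n c f := by
      ext P
      simp only [affinePoints, Set.mem_image, Set.mem_ofPred_eq]
      constructor
      · rintro ⟨h1, h2, h3⟩
        refine ⟨(P.1, u⁻¹ * P.2), ⟨h1, ?_, ?_⟩, ?_⟩
        · rw [mul_pow, inv_pow, hun, h2]
        · rw [mul_pow, inv_pow, hu, ← h3, map_one, one_mul, ← mul_assoc, mul_inv_cancel₀,
            one_mul]
          rw [← hu]; exact pow_ne_zero 2 hu0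
        · apply Prod.ext
          · rfl
          · change u * (u⁻¹ * P.2) = P.2
            rw [← mul_assoc, mul_inv_cancel₀ hu0, one_mul]
      · rintro ⟨Q, ⟨h1, h2, h3⟩, rfl⟩
        refine ⟨h1, ?_, ?_⟩
        · change (u * Q.2) ^ _ = u * Q.2
          rw [mul_pow, hun, h2]
        · change algebraMap k _ 1 * (u * Q.2) ^ 2 = aeval Q.1 f
          rw [map_one, one_mul, mul_pow, hu, h3]
    rw [himg, Set.ncard_image_of_injective]
    intro P Q h
    have h' : (P.1, u * P.2) = (Q.1, u * Q.2) := h
    rw [Prod.mk.injEq] at h'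
    have h1 : P.1 = Q.1 := h'.1
    have h2 : u * P.2 = u * Q.2 := h'.2
    exact Prod.ext h1 (mul_left_cancel₀ hu0 h2)
  · have himg : pointsAtInfinity k n 1 f =
        (fun y : AlgebraicClosure k => u * y) '' pointsAtInfinity k n c f := by
      ext y
      simp only [pointsAtInfinity, Set.mem_image, Set.mem_ofPred_eq]
      constructor
      · rintro ⟨h1, h2⟩
        refine ⟨u⁻¹ * y, ⟨?_, ?_⟩, ?_⟩
        · rw [mul_pow, inv_pow, hun, h1]
        · rw [mul_pow, inv_pow, hu, ← h2, map_one, one_mul, ← mul_assoc, mul_inv_cancel₀,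
            one_mul]
          rw [← hu]; exact pow_ne_zero 2 hu0
        · rw [← mul_assoc, mul_inv_cancel₀ hu0, one_mul]
      · rintro ⟨z, ⟨h1, h2⟩, rfl⟩
        refine ⟨?_, ?_⟩
        · rw [mul_pow, hun, h1]
        · rw [map_one, one_mul, mul_pow, hu, h2]
    rw [himg, Set.ncard_image_of_injective]
    intro y z h
    exact mul_left_cancel₀ hu0 h

variable [Fintype k]

theorem fixed_iff (z : AlgebraicClosure k) :
    z ^ (Nat.card k ^ 1) = z ↔ ∃ x : k, algebraMap k (AlgebraicClosure k) x = z := by
  classical
  rw [pow_one, Nat.card_eq_fintype_card]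
  have hq : 1 < Fintype.card k := Fintype.one_lt_card
  constructor
  · intro h
    by_contra hne
    push Not at hne
    -- too many roots of X^q - X
    set p : (AlgebraicClosure k)[X] := X ^ Fintype.card k - X with hp
    have hp0 : p ≠ 0 := FiniteField.X_pow_card_sub_X_ne_zero _ hq
    have hdeg : p.natDegree = Fintype.card k := FiniteField.X_pow_card_sub_X_natDegree_eq _ hq
    have hsub : insert z (Finset.univ.image (algebraMap k (AlgebraicClosure k))) ⊆
        p.roots.toFinset := by
      intro w hw
      rw [Multiset.mem_toFinset, mem_roots hp0, IsRoot.def, hp, eval_sub, eval_pow, eval_X,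
        sub_eq_zero]
      rw [Finset.mem_insert] at hw
      rcases hw with rfl | hw
      · exact h
      · rw [Finset.mem_image] at hw
        obtain ⟨x, _, rfl⟩ := hw
        rw [← map_pow, FiniteField.pow_card]
    have hc := Finset.card_le_card hsub
    rw [Finset.card_insert_of_notMem, Finset.card_image_of_injective _
      (algebraMap k (AlgebraicClosure k)).injective, Finset.card_univ] at hc
    · have h2 := (Multiset.toFinset_card_le p.roots).trans (card_roots' p)
      rw [hdeg] at h2
      omega
    · rw [Finset.mem_image]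
      rintro ⟨x, _, hx⟩
      exact hne x hx
  · rintro ⟨x, rfl⟩
    rw [← map_pow, FiniteField.pow_card]

theorem numPoints_one [DecidableEq k] (c : k) (f : k[X]) :
    numPoints k 1 c f = ∑ x : k, (Finset.univ.filter fun y : k => c * y ^ 2 = f.eval x).card +
      (Finset.univ.filter fun y : k => c * y ^ 2 = f.coeff 6).card := by
  classical
  unfold numPoints
  congr 1
  · have himg : affinePoints k 1 c f =
        (fun P : k × k => (algebraMap k (AlgebraicClosure k) P.1,
          algebraMap k (AlgebraicClosure k) P.2)) ''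
          {P : k × k | c * P.2 ^ 2 = f.eval P.1} := by
      ext P
      simp only [affinePoints, Set.mem_image, Set.mem_ofPred_eq]
      constructor
      · rintro ⟨h1, h2, h3⟩
        obtain ⟨x, hx⟩ := (fixed_iff _).mp h1
        obtain ⟨y, hy⟩ := (fixed_iff _).mp h2
        refine ⟨(x, y), ?_, Prod.ext hx hy⟩
        rw [← hx, ← hy, aeval_algebraMap_apply, ← map_pow, ← map_mul] at h3
        exact (algebraMap k (AlgebraicClosure k)).injective h3
      · rintro ⟨Q, h3, rfl⟩
        refine ⟨(fixed_iff _).mpr ⟨_, rfl⟩, (fixed_iff _).mpr ⟨_, rfl⟩, ?_⟩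
        rw [aeval_algebraMap_apply, ← map_pow, ← map_mul, h3]
        rfl
    rw [himg, Set.ncard_image_of_injective]
    · have hset : {P : k × k | c * P.2 ^ 2 = f.eval P.1} =
          ((Finset.univ.filter fun P : k × k => c * P.2 ^ 2 = f.eval P.1) : Finset (k × k)) := by
        ext P; simp
      rw [hset, Set.ncard_coe_finset, Finset.card_filter, Fintype.sum_prod_type]
      exact Finset.sum_congr rfl fun x _ => (Finset.card_filter _ _).symm
    · intro P Q h
      exact Prod.ext ((algebraMap k (AlgebraicClosure k)).injective (congrArg Prod.fst h))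
        ((algebraMap k (AlgebraicClosure k)).injective (congrArg Prod.snd h))
  · have himg : pointsAtInfinity k 1 c f =
        (algebraMap k (AlgebraicClosure k)) '' {y : k | c * y ^ 2 = f.coeff 6} := by
      ext y
      simp only [pointsAtInfinity, Set.mem_image, Set.mem_ofPred_eq]
      constructor
      · rintro ⟨h1, h2⟩
        obtain ⟨z, hz⟩ := (fixed_iff _).mp h1
        refine ⟨z, ?_, hz⟩
        rw [← hz, ← map_pow, ← map_mul] at h2
        exact (algebraMap k (AlgebraicClosure k)).injective h2
      · rintro ⟨z, h2, rfl⟩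
        refine ⟨(fixed_iff _).mpr ⟨_, rfl⟩, ?_⟩
        rw [← map_pow, ← map_mul, h2]
    rw [himg, Set.ncard_image_of_injective _ (algebraMap k (AlgebraicClosure k)).injective]
    have hset : {y : k | c * y ^ 2 = f.coeff 6} =
        ((Finset.univ.filter fun y : k => c * y ^ 2 = f.coeff 6) : Finset k) := by
      ext y; simp
    rw [hset, Set.ncard_coe_finset]

theorem count_add [DecidableEq k] (h2 : (2 : k) ≠ 0) (c : k) (hc0 : c ≠ 0) (hc : ¬ IsSquare c)
    (u : k) : (Finset.univ.filter fun y : k => c * y ^ 2 = u).card +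
      (Finset.univ.filter fun y : k => (1:k) * y ^ 2 = u).card = 2 := by
  have hchar : ringChar k ≠ 2 := by
    intro h
    apply h2
    have := ringChar.Nat.cast_ringChar (R := k)
    rw [h] at this
    exact_mod_cast this
  have key : ∀ a : k, ((Finset.univ.filter fun y : k => y ^ 2 = a).card : ℤ) =
      quadraticChar k a + 1 := by
    intro a
    rw [← quadraticChar_card_sqrts hchar a]
    congr 1
    congr 1
    ext y
    simp
  have h1 : (Finset.univ.filter fun y : k => c * y ^ 2 = u) =
      Finset.univ.filter fun y : k => y ^ 2 = c⁻¹ * u := by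
    ext y
    simp only [Finset.mem_filter, Finset.mem_univ, true_and]
    rw [eq_inv_mul_iff_mul_eq₀ hc0]
  have h3 : (Finset.univ.filter fun y : k => (1:k) * y ^ 2 = u) =
      Finset.univ.filter fun y : k => y ^ 2 = u := by simp
  have hχ : quadraticChar k c⁻¹ = -1 := by
    rw [quadraticChar_neg_one_iff_not_isSquare]
    rwa [isSquare_inv]
  have h4 : (((Finset.univ.filter fun y : k => c * y ^ 2 = u).card +
      (Finset.univ.filter fun y : k => (1:k) * y ^ 2 = u).card : ℕ) : ℤ) = 2 := by
    rw [h1, h3]
    push_cast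
    rw [key, key, map_mul, hχ]
    ring
  exact_mod_cast h4

/-- Twisting by a non-square. -/
theorem numPoints_nonsquare (h2 : (2 : k) ≠ 0) (c : k) (hc0 : c ≠ 0) (hc : ¬ IsSquare c)
    (f : k[X]) : numPoints k 1 c f + numPoints k 1 1 f = 2 * (Nat.card k + 1) := by
  classical
  rw [numPoints_one, numPoints_one]
  have h3 := count_add h2 c hc0 hc
  calc _ = ∑ x : k, ((Finset.univ.filter fun y : k => c * y ^ 2 = f.eval x).card +
          (Finset.univ.filter fun y : k => (1:k) * y ^ 2 = f.eval x).card) +
        ((Finset.univ.filter fun y : k => c * y ^ 2 = f.coeff 6).card +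
          (Finset.univ.filter fun y : k => (1:k) * y ^ 2 = f.coeff 6).card) := by
        rw [Finset.sum_add_distrib]; ring
    _ = 2 * (Nat.card k + 1) := by
        simp_rw [h3]
        rw [Finset.sum_const, Finset.card_univ, Nat.card_eq_fintype_card, smul_eq_mul]
        ring

/-- Twisting by a square. -/
theorem numPoints_square (c : k) (hc0 : c ≠ 0) (hc : IsSquare c)
    (f : k[X]) : numPoints k 1 c f = numPoints k 1 1 f := by
  obtain ⟨r, hr⟩ := hc
  have hr0 : r ≠ 0 := by
    rintro rfl
    rw [mul_zero] at hr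
    exact hc0 hr
  refine numPoints_of_sqrt 1 c f (algebraMap k (AlgebraicClosure k) r) ?_ ?_ ?_
  · rw [Ne, map_eq_zero]; exact hr0
  · rw [← map_pow, hr, sq]
  · exact (fixed_iff _).mpr ⟨r, rfl⟩

/-- Twisting over the quadratic extension. -/
theorem numPoints_two (h2 : (2 : k) ≠ 0) (c : k) (hc0 : c ≠ 0)
    (f : k[X]) : numPoints k 2 c f = numPoints k 2 1 f := by
  obtain ⟨u, hu⟩ := IsAlgClosed.exists_pow_nat_eq (algebraMap k (AlgebraicClosure k) c)
    (n := 2) (by norm_num)
  have hc0' : algebraMap k (AlgebraicClosure k) c ≠ 0 := by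
    rw [Ne, map_eq_zero]; exact hc0
  have hu0 : u ≠ 0 := by
    rintro rfl
    rw [zero_pow two_ne_zero] at hu
    exact hc0' hu.symm
  refine numPoints_of_sqrt 2 c f u hu0 hu ?_
  rw [Nat.card_eq_fintype_card]
  have hchar : ringChar k ≠ 2 := by
    intro h
    apply h2
    have := ringChar.Nat.cast_ringChar (R := k)
    rw [h] at this
    exact_mod_cast this
  have hodd : Fintype.card k % 2 = 1 := FiniteField.odd_card_of_char_ne_two hchar
  set q := Fintype.card k with hq
  have hq1 : 1 < q := Fintype.one_lt_card
  obtain ⟨m, hm⟩ : ∃ m, q = 2 * m + 1 := ⟨q / 2, by omega⟩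
  -- q^2 = 2 * (q-1) * ((q+1)/2) + 1
  have hqq : q ^ 2 = 2 * ((q - 1) * (m + 1)) + 1 := by
    have : q - 1 = 2 * m := by omega
    rw [this, hm]; ring
  rw [hqq, pow_succ, pow_mul, hu, pow_mul, ← map_pow, FiniteField.pow_card_sub_one_eq_one c hc0,
    map_one, one_pow, one_mul]

end

end Pool.Agent.Work.MP_6dc561_nt
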