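import Pool.Agent.Work.MP_6dc561_nt.Natural
import Pool.Agent.Work.MP_6dc561_nt.Curve

/-!
# Quadratic twists: Frobenius data and good primes
-/

open Filter Topology NumberField IsDedekindDomain Ideal Polynomial

namespace Pool.Agent.Work.MP_6dc561_nt

variable {F : Type*} [Field F] [NumberField F]

theorem natCard_eq (v : HeightOneSpectrum (𝓞 F)) : Nat.card (𝓞 F ⧸ v.asIdeal) = nrm v := by
  unfold nrm
  rw [absNorm_apply, Submodule.cardQuot_apply]

theorem pointCount_nonsquare (f : (𝓞 F)[X]) (d : 𝓞 F) (v : HeightOneSpectrum (𝓞 F))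
    (h2 : (2 : 𝓞 F) ∉ v.asIdeal) (hd : d ∉ v.asIdeal)
    (hsq : ¬ IsSquare (Ideal.Quotient.mk v.asIdeal d)) :
    pointCount f d v 1 + pointCount f 1 v 1 = 2 * (nrm v + 1) := by
  have hfin : Finite (𝓞 F ⧸ v.asIdeal) := v.asIdeal.finiteQuotientOfFreeOfNeBot v.ne_bot
  let _ : Field (𝓞 F ⧸ v.asIdeal) := residueField v
  let _ : Fintype (𝓞 F ⧸ v.asIdeal) := Fintype.ofFinite _
  have h2' : (2 : 𝓞 F ⧸ v.asIdeal) ≠ 0 := by
    intro h
    apply h2
    rw [← Ideal.Quotient.eq_zero_iff_mem, map_ofNat]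
    exact h
  have hd' : (Ideal.Quotient.mk v.asIdeal d) ≠ 0 := fun h =>
    hd (Ideal.Quotient.eq_zero_iff_mem.mp h)
  have := numPoints_nonsquare h2' _ hd' hsq (f.map (Ideal.Quotient.mk v.asIdeal))
  rw [natCard_eq] at this
  unfold pointCount
  rw [map_one]
  exact this

theorem pointCount_square (f : (𝓞 F)[X]) (d : 𝓞 F) (v : HeightOneSpectrum (𝓞 F))
    (hd : d ∉ v.asIdeal) (hsq : IsSquare (Ideal.Quotient.mk v.asIdeal d)) :
    pointCount f d v 1 = pointCount f 1 v 1 := by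
  have hfin : Finite (𝓞 F ⧸ v.asIdeal) := v.asIdeal.finiteQuotientOfFreeOfNeBot v.ne_bot
  let _ : Field (𝓞 F ⧸ v.asIdeal) := residueField v
  let _ : Fintype (𝓞 F ⧸ v.asIdeal) := Fintype.ofFinite _
  have hd' : (Ideal.Quotient.mk v.asIdeal d) ≠ 0 := fun h =>
    hd (Ideal.Quotient.eq_zero_iff_mem.mp h)
  have := numPoints_square _ hd' hsq (f.map (Ideal.Quotient.mk v.asIdeal))
  unfold pointCount
  rw [map_one]
  exact this

theorem pointCount_two (f : (𝓞 F)[X]) (d : 𝓞 F) (v : HeightOneSpectrum (𝓞 F))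
    (h2 : (2 : 𝓞 F) ∉ v.asIdeal) (hd : d ∉ v.asIdeal) :
    pointCount f d v 2 = pointCount f 1 v 2 := by
  have hfin : Finite (𝓞 F ⧸ v.asIdeal) := v.asIdeal.finiteQuotientOfFreeOfNeBot v.ne_bot
  let _ : Field (𝓞 F ⧸ v.asIdeal) := residueField v
  let _ : Fintype (𝓞 F ⧸ v.asIdeal) := Fintype.ofFinite _
  have h2' : (2 : 𝓞 F ⧸ v.asIdeal) ≠ 0 := by
    intro h
    apply h2
    rw [← Ideal.Quotient.eq_zero_iff_mem, map_ofNat]
    exact h
  have hd' : (Ideal.Quotient.mk v.asIdeal d) ≠ 0 := fun h =>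
    hd (Ideal.Quotient.eq_zero_iff_mem.mp h)
  have := numPoints_two h2' _ hd' (f.map (Ideal.Quotient.mk v.asIdeal))
  unfold pointCount
  rw [map_one]
  exact this

theorem frobTrace_twist (f : (𝓞 F)[X]) (d : 𝓞 F) (v : HeightOneSpectrum (𝓞 F))
    (h2 : (2 : 𝓞 F) ∉ v.asIdeal) (hd : d ∉ v.asIdeal) :
    frobTrace f d v = chi d v * frobTrace f 1 v := by
  unfold chi frobTrace
  rw [if_neg hd]
  split_ifs with hsq
  · rw [pointCount_square f d v hd hsq]; ring
  · have h : ((pointCount f d v 1 + pointCount f 1 v 1 : ℕ) : ℝ) = ((2 * (nrm v + 1) : ℕ) : ℝ) := by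
      rw [pointCount_nonsquare f d v h2 hd hsq]
    push_cast at h
    linarith

theorem frobSecond_twist (f : (𝓞 F)[X]) (d : 𝓞 F) (v : HeightOneSpectrum (𝓞 F))
    (h2 : (2 : 𝓞 F) ∉ v.asIdeal) (hd : d ∉ v.asIdeal) :
    frobSecond f d v = frobSecond f 1 v := by
  unfold frobSecond
  rw [pointCount_two f d v h2 hd, frobTrace_twist f d v h2 hd, mul_pow]
  have : chi d v ^ 2 = 1 := by
    unfold chi
    rw [if_neg hd]
    split_ifs <;> norm_num
  rw [this, one_mul]

theorem good_iff (f : (𝓞 F)[X]) (d : 𝓞 F) (v : HeightOneSpectrum (𝓞 F)) :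
    v ∈ goodPrimes f d ↔ v ∈ goodPrimes f 1 ∧ d ∉ v.asIdeal := by
  have h1 : (1 : 𝓞 F) ∉ v.asIdeal := fun h => v.isPrime.ne_top ((Ideal.eq_top_iff_one _).mpr h)
  unfold goodPrimes
  simp only [Set.mem_ofPred_eq]
  tauto

/-- finitely many bad primes -/
theorem good_cofinite (f : (𝓞 F)[X]) (hdeg : f.natDegree = 5 ∨ f.natDegree = 6)
    (hsep : (f.map (algebraMap (𝓞 F) F)).Separable) (d : 𝓞 F) (hd : d ≠ 0) :
    (goodPrimes f d)ᶜ.Finite := by
  classical
  -- Bezout over the ring of integers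
  obtain ⟨r, hr0, u, w, huw⟩ : ∃ r : 𝓞 F, r ≠ 0 ∧ ∃ u w : (𝓞 F)[X],
      u * f + w * derivative f = C r := by
    obtain ⟨u, w, huw⟩ := hsep
    obtain ⟨b₁, hm₁, hb₁⟩ := IsLocalization.integerNormalization_spec (nonZeroDivisors (𝓞 F)) u
    obtain ⟨b₂, hm₂, hb₂⟩ := IsLocalization.integerNormalization_spec (nonZeroDivisors (𝓞 F)) w
    refine ⟨b₁ * b₂, mul_ne_zero (nonZeroDivisors.ne_zero hm₁) (nonZeroDivisors.ne_zero hm₂),
      C b₂ * IsLocalization.integerNormalization (nonZeroDivisors (𝓞 F)) u,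
      C b₁ * IsLocalization.integerNormalization (nonZeroDivisors (𝓞 F)) w, ?_⟩
    apply map_injective (algebraMap (𝓞 F) F) (IsFractionRing.injective (𝓞 F) F)
    have e1 : (IsLocalization.integerNormalization (nonZeroDivisors (𝓞 F)) u).map
        (algebraMap (𝓞 F) F) = C (algebraMap (𝓞 F) F b₁) * u := by
      rw [hb₁]
      ext n
      rw [coeff_C_mul, ← Algebra.smul_def]
      rfl
    have e2 : (IsLocalization.integerNormalization (nonZeroDivisors (𝓞 F)) w).map
        (algebraMap (𝓞 F) F) = C (algebraMap (𝓞 F) F b₂) * w := by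
      rw [hb₂]
      ext n
      rw [coeff_C_mul, ← Algebra.smul_def]
      rfl
    rw [derivative_map] at huw
    rw [Polynomial.map_add, Polynomial.map_mul, Polynomial.map_mul, Polynomial.map_mul,
      Polynomial.map_mul, e1, e2, map_C, map_C, map_C, map_mul, C_mul]
    linear_combination (C (algebraMap (𝓞 F) F b₁) * C (algebraMap (𝓞 F) F b₂)) * huw
  have hf0 : f ≠ 0 := by
    rintro rfl
    rcases hdeg with h | h <;> simp at h
  have hlc : f.leadingCoeff ≠ 0 := leadingCoeff_ne_zero.mpr hf0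
  have hne : (2 * d * r * f.leadingCoeff : 𝓞 F) ≠ 0 :=
    mul_ne_zero (mul_ne_zero (mul_ne_zero two_ne_zero hd) hr0) hlc
  have hfin : {v : HeightOneSpectrum (𝓞 F) | v.asIdeal ∣
      Ideal.span {2 * d * r * f.leadingCoeff}}.Finite :=
    Ideal.finite_factors (by rwa [Ne, Ideal.zero_eq_bot, Ideal.span_singleton_eq_bot])
  refine hfin.subset fun v hv => ?_
  simp only [Set.mem_ofPred_eq, Ideal.dvd_span_singleton]
  by_contra hnot
  apply hv
  have h2 : (2 : 𝓞 F) ∉ v.asIdeal := fun h => hnot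
    (v.asIdeal.mul_mem_right _ (v.asIdeal.mul_mem_right _ (v.asIdeal.mul_mem_right _ h)))
  have hdv : d ∉ v.asIdeal := fun h => hnot
    (v.asIdeal.mul_mem_right _ (v.asIdeal.mul_mem_right _ (v.asIdeal.mul_mem_left _ h)))
  have hrv : r ∉ v.asIdeal := fun h => hnot
    (v.asIdeal.mul_mem_right _ (v.asIdeal.mul_mem_left _ h))
  have hlv : f.leadingCoeff ∉ v.asIdeal := fun h => hnot (v.asIdeal.mul_mem_left _ h)
  refine ⟨h2, hdv, ?_, ?_⟩
  · -- separable
    let _ : Field (𝓞 F ⧸ v.asIdeal) := residueField v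
    have hr' : Ideal.Quotient.mk v.asIdeal r ≠ 0 := fun h =>
      hrv (Ideal.Quotient.eq_zero_iff_mem.mp h)
    have h1 := congrArg (Polynomial.map (Ideal.Quotient.mk v.asIdeal)) huw
    rw [Polynomial.map_add, Polynomial.map_mul, Polynomial.map_mul, map_C] at h1
    have h3 : (C (Ideal.Quotient.mk v.asIdeal r)⁻¹ * u.map (Ideal.Quotient.mk v.asIdeal)) *
        f.map (Ideal.Quotient.mk v.asIdeal) +
        (C (Ideal.Quotient.mk v.asIdeal r)⁻¹ * w.map (Ideal.Quotient.mk v.asIdeal)) *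
        (derivative f).map (Ideal.Quotient.mk v.asIdeal) = 1 := by
      have h4 : (C (Ideal.Quotient.mk v.asIdeal r)⁻¹ * C (Ideal.Quotient.mk v.asIdeal r) :
          (𝓞 F ⧸ v.asIdeal)[X]) = 1 := by
        rw [← C_mul, inv_mul_cancel₀ hr', C_1]
      linear_combination (C (Ideal.Quotient.mk v.asIdeal r)⁻¹) * h1 + h4
    rw [← derivative_map] at h3
    exact ⟨_, _, h3⟩
  · have : (f.map (Ideal.Quotient.mk v.asIdeal)).natDegree = f.natDegree := by
      apply natDegree_map_of_leadingCoeff_ne_zero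
      intro h
      exact hlv (Ideal.Quotient.eq_zero_iff_mem.mp h)
    rw [this]
    omega

/-- The main theorem. -/
theorem twist_main (f : (𝓞 F)[X]) (hdeg : f.natDegree = 5 ∨ f.natDegree = 6)
    (hsep : (f.map (algebraMap (𝓞 F) F)).Separable)
    (G : ℝ → ℝ → ℝ) (hG : ∀ x y, G (-x) y = -G x y) (M : ℝ) (hM : ∀ x y, |G x y| ≤ M)
    (D : Finset (𝓞 F)) (hD0 : ∀ d ∈ D, d ≠ 0)
    (hD : ∀ d ∈ D, ∀ d' ∈ D, d ≠ d' → ¬ IsSquare ((d * d' : 𝓞 F) : F)) :
    ∑ d ∈ D, (liminf (fun x : ℝ => |frobAverage f d G x|) atTop) ^ 2 ≤ M ^ 2 := by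
  classical
  set g₀ : 𝓞 F → HeightOneSpectrum (𝓞 F) → ℝ := fun d v =>
    if v ∈ goodPrimes f d then
      G (frobTrace f d v / Real.sqrt (nrm v)) (frobSecond f d v / nrm v) else 0 with hg₀
  have hM0 : 0 ≤ M := (abs_nonneg _).trans (hM 0 0)
  have hg : ∀ v, |g₀ 1 v| ≤ M := by
    intro v
    simp only [hg₀]
    split_ifs
    · exact hM _ _
    · rw [abs_zero]; exact hM0
  have hh : ∀ d ∈ D, ∀ v, g₀ d v = chi d v * g₀ 1 v := by
    intro d _ v
    simp only [hg₀]
    by_cases hv : v ∈ goodPrimes f d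
    · have hv1 := ((good_iff f d v).mp hv).1
      rw [if_pos hv, if_pos hv1, frobTrace_twist f d v hv.1 hv.2.1,
        frobSecond_twist f d v hv.1 hv.2.1]
      have hchi : chi d v = 1 ∨ chi d v = -1 := by
        unfold chi
        rw [if_neg hv.2.1]
        split_ifs <;> simp
      rcases hchi with h | h
      · rw [h, one_mul, one_mul]
      · rw [h, neg_one_mul, neg_div, hG, neg_one_mul]
    · rw [if_neg hv]
      by_cases hv1 : v ∈ goodPrimes f 1
      · have hdv : d ∈ v.asIdeal := by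
          by_contra h
          exact hv ((good_iff f d v).mpr ⟨hv1, h⟩)
        have : chi d v = 0 := by unfold chi; rw [if_pos hdv]
        rw [this, zero_mul]
      · rw [if_neg hv1, mul_zero]
  have hmain := natural_bessel D hD (g₀ 1) M hg (goodPrimes f)
    (fun d hd => good_cofinite f hdeg hsep d (hD0 d hd)) g₀ hh
    (fun d _ v hv => by simp only [hg₀]; rw [if_neg hv])
  have heq : ∀ d x, frobAverage f d G x = avg (goodPrimes f d) (g₀ d) x := by
    intro d x
    unfold frobAverage avg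
    congr 1
    refine finsum_mem_congr rfl fun v hv => ?_
    have hv' : v ∈ goodPrimes f d := hv.1
    simp only [hg₀]
    rw [if_pos hv']
  simp_rw [heq]
  exact hmain

end Pool.Agent.Work.MP_6dc561_nt
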