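import Pool.Agent.Work.MP_6dc561_nt.Orth

/-!
# A Bessel inequality for quadratic twists
-/

open Filter Topology NumberField IsDedekindDomain Ideal nonZeroDivisors Polynomial

namespace Pool.Agent.Work.MP_6dc561_nt

variable {F : Type*} [Field F] [NumberField F]

theorem chi_mul (d e : 𝓞 F) (v : HeightOneSpectrum (𝓞 F)) :
    chi (d * e) v = chi d v * chi e v := by
  classical
  have hmax := v.isMaximal
  letI : Field (𝓞 F ⧸ v.asIdeal) := Ideal.Quotient.field v.asIdeal
  have hfin : Finite (𝓞 F ⧸ v.asIdeal) := v.asIdeal.finiteQuotientOfFreeOfNeBot v.ne_bot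
  letI : Fintype (𝓞 F ⧸ v.asIdeal) := Fintype.ofFinite _
  have key : ∀ x : 𝓞 F, chi x v = ((quadraticChar (𝓞 F ⧸ v.asIdeal)
      (Ideal.Quotient.mk v.asIdeal x) : ℤ) : ℝ) := by
    intro x
    unfold chi
    rw [quadraticChar_apply, quadraticCharFun]
    by_cases hx : x ∈ v.asIdeal
    · rw [if_pos hx, if_pos (Ideal.Quotient.eq_zero_iff_mem.mpr hx)]
      simp
    · rw [if_neg hx, if_neg (fun h => hx (Ideal.Quotient.eq_zero_iff_mem.mp h))]
      split_ifs <;> simp
  rw [key, key, key, map_mul, map_mul]
  push_cast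
  ring

theorem le_of_mul_atTop {Z : ℝ → ℝ} {l : Filter ℝ} [l.NeBot] (hZ : Tendsto Z l atTop)
    {a b C : ℝ} (h : ∀ᶠ s in l, a * Z s ≤ b * Z s + C) : a ≤ b := by
  by_contra hlt
  push Not at hlt
  have h1 : ∀ᶠ s in l, C / (a - b) + 1 ≤ Z s := hZ.eventually_ge_atTop _
  obtain ⟨s, hs, hs1⟩ := (h.and h1).exists
  have hpos : 0 < a - b := by linarith
  have h2 : (a - b) * (C / (a - b) + 1) ≤ (a - b) * Z s := mul_le_mul_of_nonneg_left hs1 hpos.le
  rw [mul_add, mul_div_cancel₀ _ hpos.ne'] at h2
  linarith

theorem summable_mul_qs {s : ℝ} (hs : 1 < s) (g : HeightOneSpectrum (𝓞 F) → ℝ) (M : ℝ)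
    (hg : ∀ v, |g v| ≤ M) : Summable (fun v => g v * qs F s v) := by
  refine Summable.of_norm_bounded ((summable_qs (K := F) hs).mul_left M) fun v => ?_
  rw [Real.norm_eq_abs, abs_mul, abs_of_pos (qs_pos s v)]
  exact mul_le_mul_of_nonneg_right (hg v) (qs_pos s v).le

theorem bessel (D : Finset (𝓞 F)) (hD : ∀ d ∈ D, ∀ d' ∈ D, d ≠ d' → ¬ IsSquare ((d * d' : 𝓞 F) : F))
    (g : HeightOneSpectrum (𝓞 F) → ℝ) (M : ℝ) (hg : ∀ v, |g v| ≤ M)
    (ε : 𝓞 F → ℝ) (hε : ∀ d ∈ D, 0 < ε d)
    (η : 𝓞 F → ℝ) (hη : ∀ d ∈ D, |η d| ≤ 1) (C₀ : ℝ)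
    (hlow : ∀ d ∈ D, ∀ᶠ s : ℝ in 𝓝[>] 1,
      ε d * primeSum F s - C₀ ≤ η d * ∑' v, chi d v * g v * qs F s v) :
    ∑ d ∈ D, ε d ^ 2 ≤ M ^ 2 := by
  classical
  have hM0 : 0 ≤ M := by
    by_cases hne : Nonempty (HeightOneSpectrum (𝓞 F))
    · obtain ⟨v⟩ := hne
      exact (abs_nonneg _).trans (hg v)
    · exfalso
      have := primeSum_atTop F
      have h0 : ∀ s, primeSum F s = 0 := by
        intro s
        unfold primeSum
        have : IsEmpty (HeightOneSpectrum (𝓞 F)) := not_nonempty_iff.mp hne
        exact tsum_empty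
      have h1 := this.eventually_ge_atTop 1
      obtain ⟨s, hs⟩ := h1.exists
      rw [h0] at hs
      linarith
  rcases Finset.eq_empty_or_nonempty D with rfl | hDne
  · simp; positivity
  set E := ∑ d ∈ D, ε d ^ 2 with hE
  set E₁ := ∑ d ∈ D, ε d with hE₁
  have hEpos : 0 < E := Finset.sum_pos (fun d hd => pow_pos (hε d hd) 2) hDne
  have hE₁pos : 0 < E₁ := Finset.sum_pos hε hDne
  -- orthogonality
  have horth : ∀ d ∈ D, ∀ d' ∈ D, ∃ C : ℝ, ∀ᶠ s : ℝ in 𝓝[>] 1,
      η d * η d' * ∑' v, chi d v * chi d' v * qs F s v ≤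
        (if d = d' then 1 else 0) * primeSum F s + C := by
    intro d hd d' hd'
    by_cases h : d = d'
    · subst h
      refine ⟨0, ?_⟩
      filter_upwards [eventually_mem_nhdsWithin] with s hs
      rw [if_pos rfl, one_mul, add_zero]
      have h1 : ∑' v, chi d v * chi d v * qs F s v ≤ primeSum F s := by
        unfold primeSum
        refine Summable.tsum_le_tsum (fun v => ?_) ?_ (summable_qs (K := F) hs)
        · have h2 := abs_le.mp (chi_abs_le d v)
          have h3 := qs_pos (K := F) s v
          have : chi d v * chi d v ≤ 1 := by nlinarith [h2.1, h2.2]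
          nlinarith
        · refine summable_mul_qs hs _ 1 fun v => ?_
          rw [abs_mul]
          have := chi_abs_le d v
          have := abs_nonneg (chi d v)
          nlinarith
      have h0 : 0 ≤ ∑' v, chi d v * chi d v * qs F s v :=
        tsum_nonneg fun v => mul_nonneg (mul_self_nonneg _) (qs_pos s v).le
      have h4 : η d * η d ≤ 1 := by
        have := abs_le.mp (hη d hd)
        nlinarith [this.1, this.2]
      have h5 : 0 ≤ η d * η d := mul_self_nonneg _
      nlinarith
    · obtain ⟨C, hC⟩ := chi_bdd (d * d') (hD d hd d' hd' h)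
      refine ⟨C, ?_⟩
      filter_upwards [hC] with s hs
      rw [if_neg h, zero_mul, zero_add]
      have h1 : (fun v => chi d v * chi d' v * qs F s v) = fun v => chi (d * d') v * qs F s v := by
        funext v; rw [chi_mul]
      rw [h1]
      have h2 : |η d * η d'| ≤ 1 := by
        rw [abs_mul]
        have := hη d hd
        have := hη d' hd'
        have := abs_nonneg (η d)
        have := abs_nonneg (η d')
        nlinarith
      calc η d * η d' * ∑' v, chi (d * d') v * qs F s v
          ≤ |η d * η d' * ∑' v, chi (d * d') v * qs F s v| := le_abs_self _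
        _ = |η d * η d'| * |∑' v, chi (d * d') v * qs F s v| := abs_mul _ _
        _ ≤ 1 * C := mul_le_mul h2 hs (abs_nonneg _) zero_le_one
        _ = C := one_mul C
  choose! Cf hCf using horth
  set C₁ := ∑ d ∈ D, ∑ d' ∈ D, ε d * ε d' * Cf d d' with hC₁
  -- the quadratic form
  set A : HeightOneSpectrum (𝓞 F) → ℝ := fun v => ∑ d ∈ D, ε d * (η d * chi d v) with hA
  have hηχ : ∀ d ∈ D, ∀ v, |η d * chi d v| ≤ 1 := by
    intro d hd v
    rw [abs_mul]
    have := hη d hd
    have := chi_abs_le d v
    have := abs_nonneg (η d)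
    have := abs_nonneg (chi d v)
    nlinarith
  have hAle : ∀ v, |A v| ≤ E₁ := by
    intro v
    calc |A v| ≤ ∑ d ∈ D, |ε d * (η d * chi d v)| := Finset.abs_sum_le_sum_abs _ _
      _ ≤ ∑ d ∈ D, ε d := by
        refine Finset.sum_le_sum fun d hd => ?_
        rw [abs_mul, abs_of_pos (hε d hd)]
        have := hηχ d hd v
        have := hε d hd
        nlinarith
  have hev : ∀ᶠ s : ℝ in 𝓝[>] 1, ∀ d ∈ D, ∀ d' ∈ D,
      η d * η d' * ∑' v, chi d v * chi d' v * qs F s v ≤
        (if d = d' then 1 else 0) * primeSum F s + Cf d d' := by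
    rw [eventually_all_finset]
    intro d hd
    rw [eventually_all_finset]
    intro d' hd'
    exact hCf d hd d' hd'
  have hev2 : ∀ᶠ s : ℝ in 𝓝[>] 1, ∀ d ∈ D,
      ε d * primeSum F s - C₀ ≤ η d * ∑' v, chi d v * g v * qs F s v := by
    rw [eventually_all_finset]
    exact hlow
  have hmain : ∀ᶠ s : ℝ in 𝓝[>] 1,
      (2 * E ^ 2 * M ^ 2) * primeSum F s ≤
        (E ^ 2 * M ^ 2 + M ^ 4 * E) * primeSum F s +
          (M ^ 4 * C₁ + 2 * E * M ^ 2 * (E₁ * C₀)) := by
    filter_upwards [hev, hev2, eventually_mem_nhdsWithin] with s h1 h2 hs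
    have hs' : (1:ℝ) < s := hs
    -- sum of the lower bounds
    have hL : E * primeSum F s - E₁ * C₀ ≤ ∑' v, A v * g v * qs F s v := by
      have e1 : ∑' v, A v * g v * qs F s v =
          ∑ d ∈ D, ε d * (η d * ∑' v, chi d v * g v * qs F s v) := by
        have e2 : ∀ v, A v * g v * qs F s v =
            ∑ d ∈ D, ε d * (η d * (chi d v * g v * qs F s v)) := by
          intro v
          simp only [hA]
          rw [Finset.sum_mul, Finset.sum_mul]
          exact Finset.sum_congr rfl fun d _ => by ring
        simp_rw [e2]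
        rw [Summable.tsum_finsetSum]
        · exact Finset.sum_congr rfl fun d _ => by rw [tsum_mul_left, tsum_mul_left]
        · intro d _
          apply Summable.mul_left
          apply Summable.mul_left
          refine summable_mul_qs hs' _ M fun v => ?_
          rw [abs_mul]
          have := chi_abs_le d v
          have := hg v
          have := abs_nonneg (g v)
          have := abs_nonneg (chi d v)
          nlinarith
      rw [e1, hE, hE₁, Finset.sum_mul, Finset.sum_mul, ← Finset.sum_sub_distrib]
      refine Finset.sum_le_sum fun d hd => ?_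
      have h3 := h2 d hd
      have h4 := hε d hd
      nlinarith
    -- upper bound for the quadratic form
    have hU : ∑' v, A v * A v * qs F s v ≤ E * primeSum F s + C₁ := by
      have e1 : ∑' v, A v * A v * qs F s v =
          ∑ d ∈ D, ∑ d' ∈ D, ε d * ε d' * (η d * η d' *
            ∑' v, chi d v * chi d' v * qs F s v) := by
        have e2 : ∀ v, A v * A v * qs F s v =
            ∑ d ∈ D, ∑ d' ∈ D, ε d * ε d' * (η d * η d' *
              (chi d v * chi d' v * qs F s v)) := by
          intro v
          simp only [hA]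
          rw [Finset.sum_mul_sum, Finset.sum_mul]
          refine Finset.sum_congr rfl fun d _ => ?_
          rw [Finset.sum_mul]
          exact Finset.sum_congr rfl fun d' _ => by ring
        simp_rw [e2]
        have hsm : ∀ d d' : 𝓞 F, Summable (fun v => chi d v * chi d' v * qs F s v) := by
          intro d d'
          refine summable_mul_qs hs' _ 1 fun v => ?_
          rw [abs_mul]
          have := chi_abs_le d v
          have := chi_abs_le d' v
          have := abs_nonneg (chi d v)
          have := abs_nonneg (chi d' v)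
          nlinarith
        rw [Summable.tsum_finsetSum]
        · refine Finset.sum_congr rfl fun d _ => ?_
          rw [Summable.tsum_finsetSum]
          · exact Finset.sum_congr rfl fun d' _ => by rw [tsum_mul_left, tsum_mul_left]
          · intro d' _
            exact ((hsm d d').mul_left _).mul_left _
        · intro d _
          exact summable_sum fun d' _ => ((hsm d d').mul_left _).mul_left _
      rw [e1]
      calc ∑ d ∈ D, ∑ d' ∈ D, ε d * ε d' * (η d * η d' * ∑' v, chi d v * chi d' v * qs F s v)
          ≤ ∑ d ∈ D, ∑ d' ∈ D, ε d * ε d' *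
              ((if d = d' then 1 else 0) * primeSum F s + Cf d d') :=
            Finset.sum_le_sum fun d hd => Finset.sum_le_sum fun d' hd' =>
              mul_le_mul_of_nonneg_left (h1 d hd d' hd') (mul_pos (hε d hd) (hε d' hd')).le
        _ = E * primeSum F s + C₁ := by
            simp_rw [mul_add, Finset.sum_add_distrib]
            rw [hC₁]
            congr 1
            rw [hE, Finset.sum_mul]
            refine Finset.sum_congr rfl fun d hd => ?_
            rw [Finset.sum_eq_single d]
            · rw [if_pos rfl]; ring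
            · intro d' _ hne
              rw [if_neg (Ne.symm hne)]; ring
            · intro h; exact absurd hd h
    -- pointwise inequality
    have hP : 2 * E * M ^ 2 * ∑' v, A v * g v * qs F s v ≤
        E ^ 2 * M ^ 2 * primeSum F s + M ^ 4 * ∑' v, A v * A v * qs F s v := by
      have hs1 : Summable (fun v => A v * g v * qs F s v) := by
        refine summable_mul_qs hs' _ (E₁ * M) fun v => ?_
        rw [abs_mul]
        exact mul_le_mul (hAle v) (hg v) (abs_nonneg _) hE₁pos.le
      have hs2 : Summable (fun v => A v * A v * qs F s v) := by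
        refine summable_mul_qs hs' _ (E₁ * E₁) fun v => ?_
        rw [abs_mul]
        exact mul_le_mul (hAle v) (hAle v) (abs_nonneg _) hE₁pos.le
      unfold primeSum
      rw [← tsum_mul_left, ← tsum_mul_left, ← tsum_mul_left,
        ← ((summable_qs (K := F) hs').mul_left _).tsum_add (hs2.mul_left _)]
      refine Summable.tsum_le_tsum (fun v => ?_) (hs1.mul_left _)
        (((summable_qs (K := F) hs').mul_left _).add (hs2.mul_left _))
      have hq := qs_pos (K := F) s v
      have hg2 : g v ^ 2 ≤ M ^ 2 := by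
        have := abs_le.mp (hg v)
        nlinarith [this.1, this.2]
      have hineq : 2 * E * M ^ 2 * (A v * g v) ≤
          E ^ 2 * M ^ 2 + M ^ 4 * (A v * A v) := by
        nlinarith [sq_nonneg (E * g v - M ^ 2 * A v),
          mul_le_mul_of_nonneg_left hg2 (sq_nonneg E)]
      nlinarith [mul_le_mul_of_nonneg_right hineq hq.le]
    have h3 : 0 ≤ 2 * E * M ^ 2 := by positivity
    have h4 := mul_le_mul_of_nonneg_left hL h3
    have h5 := mul_le_mul_of_nonneg_left hU (by positivity : 0 ≤ M ^ 4)
    nlinarith
  have hfin := le_of_mul_atTop (primeSum_atTop F) hmain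
  rcases hM0.eq_or_lt with hM | hM
  · -- M = 0
    subst hM
    exfalso
    obtain ⟨d, hd⟩ := hDne
    have hg0 : ∀ v, g v = 0 := fun v => abs_eq_zero.mp (le_antisymm (hg v) (abs_nonneg _))
    have h1 := hlow d hd
    have h2 : ∀ᶠ s : ℝ in 𝓝[>] 1, ε d * primeSum F s ≤ 0 * primeSum F s + C₀ := by
      filter_upwards [h1] with s hs
      simp only [hg0, mul_zero, zero_mul, tsum_zero] at hs
      linarith
    have := le_of_mul_atTop (primeSum_atTop F) h2
    have := hε d hd
    linarith
  · have h2 : E * M ^ 2 * E ≤ E * M ^ 2 * M ^ 2 := by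
      nlinarith
    exact le_of_mul_le_mul_left h2 (by positivity)

end Pool.Agent.Work.MP_6dc561_nt
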