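import Mathlib

/-!
# Genus two curves over number fields, their twists and Frobenius classes

For `f` of degree `5` or `6` without repeated roots, the equation `d y² = f(x)` defines a curve
of genus two over the number field `F`; its Jacobian is an abelian surface, and for varying `d`
these are the quadratic twists of the Jacobian of `y² = f(x)`.
-/

open NumberField IsDedekindDomain Ideal Polynomial

namespace Pool.Agent.Work.MP_6dc561_nt

/-- The affine points of the curve `c y² = f(x)` over the extension of degree `n` of the finite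
field `k`. -/
def affinePoints (k : Type*) [Field k] (n : ℕ) (c : k) (f : k[X]) :
    Set (AlgebraicClosure k × AlgebraicClosure k) :=
  {P | P.1 ^ (Nat.card k ^ n) = P.1 ∧ P.2 ^ (Nat.card k ^ n) = P.2 ∧
    algebraMap k (AlgebraicClosure k) c * P.2 ^ 2 = aeval P.1 f}

/-- The points at infinity of the smooth projective model of `c y² = f(x)` (degree `5` or `6`)
over the extension of degree `n` of the finite field `k`. -/
def pointsAtInfinity (k : Type*) [Field k] (n : ℕ) (c : k) (f : k[X]) :
    Set (AlgebraicClosure k) :=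
  {y | y ^ (Nat.card k ^ n) = y ∧
    algebraMap k (AlgebraicClosure k) c * y ^ 2 = algebraMap k (AlgebraicClosure k) (f.coeff 6)}

/-- The number of points of the smooth projective model of `c y² = f(x)` over the extension of
degree `n` of the finite field `k`. -/
noncomputable def numPoints (k : Type*) [Field k] (n : ℕ) (c : k) (f : k[X]) : ℕ :=
  (affinePoints k n c f).ncard + (pointsAtInfinity k n c f).ncard

variable {F : Type*} [Field F] [NumberField F]

/-- The residue field of the prime `v`. -/
@[reducible] noncomputable def residueField (v : HeightOneSpectrum (𝓞 F)) : Field (𝓞 F ⧸ v.asIdeal) :=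
  @Ideal.Quotient.field _ _ v.asIdeal v.isMaximal

/-- The number of points of the reduction of `d y² = f(x)` at `v` over the extension of degree `n`
of the residue field of `v`. -/
noncomputable def pointCount (f : (𝓞 F)[X]) (d : 𝓞 F) (v : HeightOneSpectrum (𝓞 F)) (n : ℕ) : ℕ :=
  @numPoints (𝓞 F ⧸ v.asIdeal) (residueField v) n (Ideal.Quotient.mk v.asIdeal d)
    (f.map (Ideal.Quotient.mk v.asIdeal))

/-- The norm `q_v` of the prime `v`. -/
noncomputable def nrm (v : HeightOneSpectrum (𝓞 F)) : ℕ := absNorm v.asIdeal

/-- The trace `a_v` of Frobenius at `v` of the curve `d y² = f(x)`. -/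
noncomputable def frobTrace (f : (𝓞 F)[X]) (d : 𝓞 F) (v : HeightOneSpectrum (𝓞 F)) : ℝ :=
  (nrm v : ℝ) + 1 - pointCount f d v 1

/-- The second coefficient `b_v` of the characteristic polynomial
`T⁴ - a_v T³ + b_v T² - q_v a_v T + q_v²` of Frobenius at `v` of the curve `d y² = f(x)`. -/
noncomputable def frobSecond (f : (𝓞 F)[X]) (d : 𝓞 F) (v : HeightOneSpectrum (𝓞 F)) : ℝ :=
  ((pointCount f d v 2 : ℝ) + frobTrace f d v ^ 2 - (nrm v : ℝ) ^ 2 - 1) / 2

/-- The primes at which the equation `d y² = f(x)` has good reduction: the prime does not divide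
`2 d` and the reduction of `f` has degree at least five and no repeated roots. -/
def goodPrimes (f : (𝓞 F)[X]) (d : 𝓞 F) : Set (HeightOneSpectrum (𝓞 F)) :=
  {v | (2 : 𝓞 F) ∉ v.asIdeal ∧ d ∉ v.asIdeal ∧
    (f.map (Ideal.Quotient.mk v.asIdeal)).Separable ∧
    5 ≤ (f.map (Ideal.Quotient.mk v.asIdeal)).natDegree}

/-- The set of primes of good reduction of norm at most `x`. -/
def goodUpTo (f : (𝓞 F)[X]) (d : 𝓞 F) (x : ℝ) : Set (HeightOneSpectrum (𝓞 F)) :=
  {v | v ∈ goodPrimes f d ∧ (nrm v : ℝ) ≤ x}

/-- The average, over the primes `v` of good reduction with `q_v ≤ x`, of the class function `G`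
at the class `s(v)` of the normalised Frobenius of `d y² = f(x)`, whose characteristic
polynomial is `T⁴ - (a_v/√q_v) T³ + (b_v/q_v) T² - (a_v/√q_v) T + 1`. -/
noncomputable def frobAverage (f : (𝓞 F)[X]) (d : 𝓞 F) (G : ℝ → ℝ → ℝ) (x : ℝ) : ℝ :=
  (∑ᶠ v ∈ goodUpTo f d x,
    G (frobTrace f d v / Real.sqrt (nrm v)) (frobSecond f d v / nrm v)) /
    ((goodUpTo f d x).ncard : ℝ)

end Pool.Agent.Work.MP_6dc561_nt
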