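import Pool.Agent.Work.MP_6dc561_nt.Split

/-!
# Orthogonality of quadratic characters over a number field
-/

open Filter Topology NumberField IsDedekindDomain Ideal nonZeroDivisors Polynomial

namespace Pool.Agent.Work.MP_6dc561_nt

section

variable {F K : Type*} [Field F] [NumberField F] [Field K] [NumberField K] [Algebra F K]

/-- all primes of `K`, grouped by the prime of `F` below -/
noncomputable def grp (F K : Type*) [Field F] [NumberField F] [Field K] [NumberField K]
    [Algebra F K] (x : Σ v : HeightOneSpectrum (𝓞 F), v.asIdeal.primesOver (𝓞 K)) :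
    HeightOneSpectrum (𝓞 K) :=
  ⟨x.2.1, x.2.2.1, ne_bot_of_mem_primesOver x.1.ne_bot x.2.2⟩

theorem grp_bijective : Function.Bijective (grp F K) := by
  constructor
  · rintro ⟨v₁, w₁⟩ ⟨v₂, w₂⟩ h
    have hw : w₁.1 = w₂.1 := congrArg (fun z => z.asIdeal) h
    have hv : v₁ = v₂ := by
      apply HeightOneSpectrum.ext
      rw [w₁.2.2.over, w₂.2.2.over, hw]
    subst hv
    have : w₁ = w₂ := Subtype.ext hw
    rw [this]
  · intro w
    refine ⟨⟨w.under (𝓞 F), ⟨w.asIdeal, w.isPrime, ⟨rfl⟩⟩⟩, ?_⟩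
    rfl

theorem primeSum_eq {s : ℝ} (hs : 1 < s) :
    Summable (T (F := F) K s) ∧ primeSum K s = ∑' v, T (F := F) K s v := by
  have hsum := summable_qs (K := K) hs
  set E := Equiv.ofBijective (grp F K) grp_bijective with hE
  have h1 : Summable (qs K s ∘ E) := E.summable_iff.mpr hsum
  have h2 : ∀ v : HeightOneSpectrum (𝓞 F),
      ∑' w : v.asIdeal.primesOver (𝓞 K), (qs K s ∘ E) ⟨v, w⟩ = T K s v := fun v => rfl
  refine ⟨?_, ?_⟩
  · have := h1.sigma
    exact this.congr fun v => h2 v
  · unfold primeSum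
    have h3 : ∑' w, qs K s w = ∑' x, (qs K s ∘ E) x := (E.tsum_eq (qs K s)).symm
    rw [h3, h1.tsum_sigma]
    exact tsum_congr h2

theorem chi_abs_le (e : 𝓞 F) (v : HeightOneSpectrum (𝓞 F)) : |chi e v| ≤ 1 := by
  unfold chi
  split_ifs <;> simp

/-- the finitely many bad primes -/
def bad (e : 𝓞 F) : Set (HeightOneSpectrum (𝓞 F)) := {v | (2 : 𝓞 F) ∈ v.asIdeal ∨ e ∈ v.asIdeal}

theorem bad_finite (e : 𝓞 F) (he : e ≠ 0) : (bad e).Finite := by
  have h2e : (2 * e : 𝓞 F) ≠ 0 := mul_ne_zero two_ne_zero he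
  have h : {v : HeightOneSpectrum (𝓞 F) | v.asIdeal ∣ Ideal.span {2 * e}}.Finite :=
    Ideal.finite_factors (by rwa [Ne, Ideal.zero_eq_bot, Ideal.span_singleton_eq_bot])
  refine h.subset fun v hv => ?_
  simp only [Set.mem_ofPred_eq, Ideal.dvd_span_singleton]
  rcases hv with h | h
  · exact v.asIdeal.mul_mem_right _ h
  · exact v.asIdeal.mul_mem_left _ h

theorem chi_sum_bdd (h2 : Module.finrank F K = 2) (e : 𝓞 F) (he : e ≠ 0) (θ : 𝓞 K)
    (hθ : θ ^ 2 = algebraMap (𝓞 F) (𝓞 K) e) (σ : 𝓞 K →ₐ[𝓞 F] 𝓞 K) (hσ : σ θ = -θ) :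
    ∃ C : ℝ, ∀ s : ℝ, 1 < s →
      |(primeSum K s - primeSum F s) - ∑' v, chi e v * qs F s v| ≤ C := by
  classical
  have hfin := bad_finite e he
  have : Fintype (bad e) := hfin.fintype
  refine ⟨2 * primeSum F 2 + ∑' v : HeightOneSpectrum (𝓞 F), if v ∈ bad e then 2 else 0,
    fun s hs => ?_⟩
  obtain ⟨hTs, hTe⟩ := primeSum_eq (F := F) (K := K) hs
  have hqs := summable_qs (K := F) hs
  have hqs2 := summable_qs (K := F) (s := 2) (by norm_num)
  have hchis : Summable (fun v => chi e v * qs F s v) := by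
    refine Summable.of_norm_bounded hqs fun v => ?_
    rw [Real.norm_eq_abs, abs_mul, abs_of_pos (qs_pos s v)]
    have := chi_abs_le e v
    have := qs_pos (K := F) s v
    nlinarith
  have hind : Summable (fun v : HeightOneSpectrum (𝓞 F) => if v ∈ bad e then (2:ℝ) else 0) := by
    apply summable_of_hasFiniteSupport
    refine hfin.subset fun v hv => ?_
    rw [Function.mem_support] at hv
    by_contra hn
    exact hv (if_neg hn)
  have hD : (primeSum K s - primeSum F s) - ∑' v, chi e v * qs F s v =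
      ∑' v, (T K s v - qs F s v - chi e v * qs F s v) := by
    rw [hTe]
    unfold primeSum
    rw [← hTs.tsum_sub hqs, ← (hTs.sub hqs).tsum_sub hchis]
  have hbound : ∀ v : HeightOneSpectrum (𝓞 F), |T K s v - qs F s v - chi e v * qs F s v| ≤
      2 * qs F 2 v + if v ∈ bad e then 2 else 0 := by
    intro v
    have hq := qs_pos (K := F) s v
    have hq2 := qs_pos (K := F) 2 v
    have hqh := qs_le_half (K := F) hs.le v
    have hT0 := T_nonneg (F := F) (K := K) s v
    by_cases hv : v ∈ bad e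
    · rw [if_pos hv]
      have hT1 : T K s v ≤ 2 * qs F s v ^ 1 := T_le h2 hs.le v 1 (fun w => one_le_f v w)
      rw [pow_one] at hT1
      have hc := abs_le.mp (chi_abs_le e v)
      rw [abs_le]
      constructor <;> nlinarith [hc.1, hc.2]
    · rw [if_neg hv, add_zero]
      have h2v : (2 : 𝓞 F) ∉ v.asIdeal := fun h => hv (Or.inl h)
      have hev : e ∉ v.asIdeal := fun h => hv (Or.inr h)
      by_cases hsq : IsSquare (Ideal.Quotient.mk v.asIdeal e)
      · obtain ⟨w₁, w₂, hne⟩ := exists_two e θ hθ σ hσ v h2v hev hsq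
        have hT := T_split (K := K) h2 s v w₁ w₂ hne
        have hc : chi e v = 1 := by unfold chi; rw [if_neg hev, if_pos hsq]
        rw [hT, hc]
        have : 2 * qs F s v - qs F s v - 1 * qs F s v = 0 := by ring
        rw [this, abs_zero]
        positivity
      · have hc : chi e v = -1 := by unfold chi; rw [if_neg hev, if_neg hsq]
        have hT : T K s v ≤ 2 * qs F s v ^ 2 :=
          T_le h2 hs.le v 2 (fun w => two_le_f e θ hθ v hsq w)
        have hsq2 := qs_sq_le (K := F) hs.le v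
        rw [hc]
        have : T K s v - qs F s v - -1 * qs F s v = T K s v := by ring
        rw [this, abs_of_nonneg hT0]
        linarith
  rw [hD]
  have hBs : Summable (fun v : HeightOneSpectrum (𝓞 F) =>
      2 * qs F 2 v + if v ∈ bad e then (2:ℝ) else 0) := (hqs2.mul_left 2).add hind
  have hle := tsum_of_norm_bounded (f := fun v => T K s v - qs F s v - chi e v * qs F s v)
    hBs.hasSum hbound
  rw [Real.norm_eq_abs] at hle
  refine hle.trans (le_of_eq ?_)
  rw [(hqs2.mul_left 2).tsum_add hind, tsum_mul_left]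
  rfl

end

variable {F : Type*} [Field F] [NumberField F]

/-- the quadratic character sums over a number field are bounded as `s` tends to `1` -/
theorem chi_bdd (e : 𝓞 F) (he : ¬ IsSquare (e : F)) :
    ∃ C : ℝ, ∀ᶠ s : ℝ in 𝓝[>] 1, |∑' v, chi e v * qs F s v| ≤ C := by
  have he0 : e ≠ 0 := by
    rintro rfl
    apply he
    exact ⟨0, by simp⟩
  set p : F[X] := X ^ 2 - C (e : F) with hp
  have hdeg : p.natDegree = 2 := natDegree_X_pow_sub_C
  have hirr : Irreducible p := by
    rw [Polynomial.irreducible_iff_roots_eq_zero_of_degree_le_three (by rw [hdeg])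
      (by rw [hdeg]; norm_num)]
    rw [Multiset.eq_zero_iff_forall_notMem]
    intro a ha
    rw [mem_roots', IsRoot.def, hp, eval_sub, eval_pow, eval_X, eval_C] at ha
    apply he
    exact ⟨a, by linear_combination -ha.2⟩
  have : Fact (Irreducible p) := ⟨hirr⟩
  let K := AdjoinRoot p
  have hpb := (AdjoinRoot.powerBasis hirr.ne_zero)
  have hfin : Module.Finite F K := (AdjoinRoot.powerBasis hirr.ne_zero).finite
  have hrank : Module.finrank F K = 2 := by
    rw [(AdjoinRoot.powerBasis hirr.ne_zero).finrank, AdjoinRoot.powerBasis_dim, hdeg]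
  have hchar : CharZero K := charZero_of_injective_algebraMap (algebraMap F K).injective
  have hfinQ : FiniteDimensional ℚ K := Module.Finite.trans F K
  have hNF : NumberField K := ⟨⟩
  have hev : ∀ {L : Type _} [CommRing L] (φ : F →+* L) (x : L),
      eval₂ φ x p = x ^ 2 - φ (e : F) := by
    intro L _ φ x
    rw [hp]
    simp
  have hroot : (AdjoinRoot.root p) ^ 2 = algebraMap F K (e : F) := by
    have h := AdjoinRoot.eval₂_root p
    rw [hev] at h
    exact sub_eq_zero.mp h
  let σ₀ : K →ₐ[F] K := AdjoinRoot.liftAlgHom p (Algebra.ofId F K) (-(AdjoinRoot.root p)) (by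
    rw [hev, neg_sq, hroot]
    exact sub_self _)
  have hσ₀ : σ₀ (AdjoinRoot.root p) = -(AdjoinRoot.root p) := AdjoinRoot.liftAlgHom_root ..
  have hint : IsIntegral ℤ (AdjoinRoot.root p : K) := by
    apply IsIntegral.of_pow (n := 2) (by norm_num)
    rw [hroot]
    exact (NumberField.RingOfIntegers.isIntegral_coe e).algebraMap
  let θ : 𝓞 K := ⟨AdjoinRoot.root p, hint⟩
  have hθ : θ ^ 2 = algebraMap (𝓞 F) (𝓞 K) e := by
    apply NumberField.RingOfIntegers.ext
    exact hroot
  let σ : 𝓞 K →ₐ[𝓞 F] 𝓞 K :=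
    { NumberField.RingOfIntegers.mapRingHom σ₀.toRingHom with
      commutes' := by
        intro r
        apply NumberField.RingOfIntegers.ext
        exact σ₀.commutes (r : F) }
  have hσ : σ θ = -θ := by
    apply NumberField.RingOfIntegers.ext
    exact hσ₀
  obtain ⟨C, hC⟩ := chi_sum_bdd (K := K) hrank e he0 θ hθ σ hσ
  obtain ⟨C₁, hC₁⟩ := primeSum_asymp K
  obtain ⟨C₂, hC₂⟩ := primeSum_asymp F
  refine ⟨C + C₁ + C₂, ?_⟩
  filter_upwards [hC₁, hC₂, eventually_mem_nhdsWithin] with s h1 h2 hs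
  have h3 := hC s hs
  rw [abs_le] at h1 h2 h3 ⊢
  constructor <;> linarith [h1.1, h1.2, h2.1, h2.2, h3.1, h3.2]

end Pool.Agent.Work.MP_6dc561_nt
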