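import Pool.Agent.Work.MP_6dc561_nt.Bessel

/-!
# From natural averages to Dirichlet series
-/

open Filter Topology NumberField IsDedekindDomain Ideal nonZeroDivisors Polynomial

namespace Pool.Agent.Work.MP_6dc561_nt

variable {F : Type*} [Field F] [NumberField F]

variable (F) in
theorem finite_le (n : ℕ) : {v : HeightOneSpectrum (𝓞 F) | absNorm v.asIdeal ≤ n}.Finite := by
  have h := Ideal.finite_setOfPred_absNorm_le (S := 𝓞 F) n
  refine Set.Finite.of_finite_image (f := fun v : HeightOneSpectrum (𝓞 F) => v.asIdeal)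
    (h.subset ?_) ?_
  · rintro _ ⟨v, hv, rfl⟩
    exact hv
  · intro v _ w _ hvw
    exact HeightOneSpectrum.ext hvw

variable (F) in
/-- the primes of norm at most `n` -/
noncomputable def L (n : ℕ) : Finset (HeightOneSpectrum (𝓞 F)) := (finite_le F n).toFinset

theorem mem_L {n : ℕ} {v : HeightOneSpectrum (𝓞 F)} : v ∈ L F n ↔ absNorm v.asIdeal ≤ n := by
  unfold L
  rw [Set.Finite.mem_toFinset]; rfl

theorem card_norm_eq_le (T : Finset (HeightOneSpectrum (𝓞 F))) (m : ℕ)
    (hT : ∀ v ∈ T, absNorm v.asIdeal = m) : T.card ≤ Module.finrank ℤ (𝓞 F) := by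
  classical
  rcases T.eq_empty_or_nonempty with rfl | ⟨v₀, hv₀⟩
  · simp
  have hp₀ : (v₀.asIdeal.under ℤ).IsPrime := v₀.isPrime.under ℤ
  have hne : v₀.asIdeal.under ℤ ≠ ⊥ := mt Ideal.eq_bot_of_comap_eq_bot v₀.ne_bot
  have hmax : (v₀.asIdeal.under ℤ).IsMaximal := hp₀.isMaximal hne
  set P := v₀.asIdeal.under ℤ with hP
  have hlo : v₀.asIdeal.LiesOver P := ⟨rfl⟩
  have hpow : P.absNorm ^ (v₀.asIdeal.inertiaDeg ℤ) = absNorm v₀.asIdeal :=
    absNorm_pow_inertiaDeg P v₀.asIdeal
  have hover : ∀ v ∈ T, v.asIdeal ∈ P.primesOver (𝓞 F) := by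
    intro v hv
    refine ⟨v.isPrime, ⟨?_⟩⟩
    have hvp : (v.asIdeal.under ℤ).IsPrime := v.isPrime.under ℤ
    apply hmax.eq_of_le hvp.ne_top
    -- P ≤ v.under ℤ
    have hmem : ((absNorm v.asIdeal : ℕ) : 𝓞 F) ∈ v.asIdeal := Ideal.absNorm_mem _
    rw [hT v hv, ← hT v₀ hv₀, ← hpow] at hmem
    have hmem2 : (P.absNorm : ℤ) ∈ v.asIdeal.under ℤ := by
      rw [Ideal.under_def, Ideal.mem_comap]
      push_cast at hmem
      have := v.isPrime.mem_of_pow_mem _ hmem
      simpa using this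
    intro x hx
    -- P is principal generated by its norm
    obtain ⟨g, hg⟩ := (IsPrincipalIdealRing.principal P).principal
    have hg' : P = Ideal.span {g} := hg
    have habs : P.absNorm = g.natAbs := by
      rw [hg', Ideal.absNorm_span_singleton, Algebra.norm_self]
      rfl
    rw [habs] at hmem2
    have hgm : g ∈ v.asIdeal.under ℤ := by
      rw [Int.natCast_natAbs] at hmem2
      rcases abs_choice g with h | h
      · rwa [h] at hmem2
      · rw [h] at hmem2
        simpa using (v.asIdeal.under ℤ).neg_mem hmem2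
    rw [hg', Ideal.mem_span_singleton] at hx
    obtain ⟨y, rfl⟩ := hx
    exact Ideal.mul_mem_right _ _ hgm
  have hsum := sum_ramification_inertia_eq_finrank P (𝓞 F)
  have hcard : Fintype.card (P.primesOver (𝓞 F)) ≤ Module.finrank ℤ (𝓞 F) := by
    rw [← hsum, Fintype.card, Finset.card_eq_sum_ones]
    refine Finset.sum_le_sum fun q _ => ?_
    have h1 := q.1.ramificationIdx_pos ℤ
    have h2 := q.1.inertiaDeg_pos ℤ
    exact Right.one_le_mul h1 h2
  refine le_trans ?_ hcard
  rw [← Fintype.card_coe]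
  refine Fintype.card_le_of_injective
    (fun v : T => (⟨v.1.asIdeal, hover v.1 v.2⟩ : P.primesOver (𝓞 F))) ?_
  intro v w h
  apply Subtype.ext
  exact HeightOneSpectrum.ext (congrArg (fun z => z.1) h)

/-- partial sums -/
noncomputable def S (h : HeightOneSpectrum (𝓞 F) → ℝ) (n : ℕ) : ℝ := ∑ v ∈ L F n, h v

theorem S_step (h : HeightOneSpectrum (𝓞 F) → ℝ) (B : ℝ) (hB : ∀ v, |h v| ≤ B) (hB0 : 0 ≤ B)
    (n : ℕ) : |S h (n + 1) - S h n| ≤ Module.finrank ℤ (𝓞 F) * B := by
  classical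
  unfold S
  have hsub : L F n ⊆ L F (n + 1) := by
    intro v hv
    rw [mem_L] at hv ⊢
    omega
  rw [← Finset.sum_sdiff hsub, add_sub_cancel_right]
  have hcard := card_norm_eq_le (L F (n + 1) \ L F n) (n + 1) (by
    intro v hv
    rw [Finset.mem_sdiff, mem_L, mem_L] at hv
    omega)
  calc |∑ v ∈ L F (n + 1) \ L F n, h v| ≤ ∑ v ∈ L F (n + 1) \ L F n, |h v| :=
        Finset.abs_sum_le_sum_abs _ _
    _ ≤ ∑ _v ∈ L F (n + 1) \ L F n, B := Finset.sum_le_sum fun v _ => hB v
    _ = (L F (n + 1) \ L F n).card * B := by rw [Finset.sum_const, nsmul_eq_mul]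
    _ ≤ Module.finrank ℤ (𝓞 F) * B := by
        apply mul_le_mul_of_nonneg_right _ hB0
        exact_mod_cast hcard

/-- the Abel weights -/
noncomputable def cw (s : ℝ) (n : ℕ) : ℝ :=
  if n = 0 then 0 else (n : ℝ) ^ (-s) - ((n : ℝ) + 1) ^ (-s)

theorem cw_nonneg {s : ℝ} (hs : 0 ≤ s) (n : ℕ) : 0 ≤ cw s n := by
  unfold cw
  split_ifs with h
  · exact le_rfl
  · have hn : (0:ℝ) < n := by exact_mod_cast Nat.pos_of_ne_zero h
    have := Real.rpow_le_rpow_of_nonpos hn (by linarith : (n:ℝ) ≤ n + 1) (by linarith : -s ≤ 0)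
    linarith

theorem cw_le_one {s : ℝ} (hs : 0 ≤ s) (n : ℕ) : cw s n ≤ 1 := by
  unfold cw
  split_ifs with h
  · exact zero_le_one
  · have hn : (1:ℝ) ≤ n := by exact_mod_cast Nat.one_le_iff_ne_zero.mpr h
    have h1 : (n:ℝ) ^ (-s) ≤ 1 := Real.rpow_le_one_of_one_le_of_nonpos hn (by linarith)
    have h2 : 0 ≤ ((n:ℝ) + 1) ^ (-s) := by positivity
    linarith

theorem hasSum_cw {s : ℝ} (hs : 1 < s) (q : ℕ) (hq : q ≠ 0) :
    HasSum (fun n : ℕ => if q ≤ n then cw s n else 0) ((q : ℝ) ^ (-s)) := by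
  rw [hasSum_iff_tendsto_nat_of_nonneg]
  · have hsum : ∀ k : ℕ, ∑ n ∈ Finset.range (q + k), (if q ≤ n then cw s n else 0) =
        (q : ℝ) ^ (-s) - ((q + k : ℕ) : ℝ) ^ (-s) := by
      intro k
      induction k with
      | zero =>
        rw [add_zero, sub_self]
        apply Finset.sum_eq_zero
        intro n hn
        rw [Finset.mem_range] at hn
        rw [if_neg (by omega)]
      | succ k ih =>
        rw [← add_assoc, Finset.sum_range_succ, ih, if_pos (by omega)]
        unfold cw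
        rw [if_neg (by omega)]
        push_cast
        ring
    have hlim : Tendsto (fun k : ℕ => (q : ℝ) ^ (-s) - ((q + k : ℕ) : ℝ) ^ (-s)) atTop
        (𝓝 ((q : ℝ) ^ (-s) - 0)) := by
      apply Tendsto.sub tendsto_const_nhds
      have h1 := tendsto_rpow_neg_atTop (y := s) (by linarith)
      have h2 : Tendsto (fun k : ℕ => ((q + k : ℕ) : ℝ)) atTop atTop := by
        apply tendsto_natCast_atTop_atTop.comp
        exact tendsto_atTop_mono (fun k => Nat.le_add_left k q) tendsto_id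
      exact h1.comp h2
    rw [sub_zero] at hlim
    have h3 : Tendsto (fun k : ℕ => ∑ n ∈ Finset.range (k + q), (if q ≤ n then cw s n else 0)) atTop
        (𝓝 ((q : ℝ) ^ (-s))) := by
      refine hlim.congr fun k => ?_
      rw [← hsum, add_comm]
    exact (tendsto_add_atTop_iff_nat q).mp h3
  · intro n
    split_ifs
    · exact cw_nonneg (by linarith) n
    · exact le_rfl

theorem abel {s : ℝ} (hs : 1 < s) (h : HeightOneSpectrum (𝓞 F) → ℝ) (B : ℝ)
    (hB : ∀ v, |h v| ≤ B) :
    HasSum (fun n : ℕ => cw s n * S h n) (∑' v, h v * qs F s v) := by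
  classical
  have hnorm : ∀ v : HeightOneSpectrum (𝓞 F), HasSum
      (fun n : ℕ => h v * (if absNorm v.asIdeal ≤ n then cw s n else 0)) (h v * qs F s v) := by
    intro v
    apply HasSum.mul_left
    exact hasSum_cw hs _ (by have := two_le_norm v; omega)
  have hnonneg : ∀ x : HeightOneSpectrum (𝓞 F) × ℕ,
      0 ≤ B * (if absNorm x.1.asIdeal ≤ x.2 then cw s x.2 else 0) := by
    intro x
    apply mul_nonneg ((abs_nonneg _).trans (hB x.1))
    split_ifs
    · exact cw_nonneg (by linarith) _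
    · exact le_rfl
  have hB2 : ∀ v : HeightOneSpectrum (𝓞 F), HasSum
      (fun n : ℕ => B * (if absNorm v.asIdeal ≤ n then cw s n else 0)) (B * qs F s v) := by
    intro v
    apply HasSum.mul_left
    exact hasSum_cw hs _ (by have := two_le_norm v; omega)
  have hsumB : Summable (fun x : HeightOneSpectrum (𝓞 F) × ℕ =>
      B * (if absNorm x.1.asIdeal ≤ x.2 then cw s x.2 else 0)) := by
    rw [summable_prod_of_nonneg hnonneg]
    refine ⟨fun v => (hB2 v).summable, ?_⟩
    refine ((summable_qs (K := F) hs).mul_left B).congr fun v => ?_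
    exact (hB2 v).tsum_eq.symm
  have hsum : Summable (fun x : HeightOneSpectrum (𝓞 F) × ℕ =>
      h x.1 * (if absNorm x.1.asIdeal ≤ x.2 then cw s x.2 else 0)) := by
    refine Summable.of_norm_bounded hsumB fun x => ?_
    rw [Real.norm_eq_abs, abs_mul]
    have h0 : 0 ≤ (if absNorm x.1.asIdeal ≤ x.2 then cw s x.2 else 0) := by
      split_ifs
      · exact cw_nonneg (by linarith) _
      · exact le_rfl
    rw [abs_of_nonneg h0]
    exact mul_le_mul_of_nonneg_right (hB x.1) h0
  have hswap := hsum.prod_symm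
  have hfib : ∀ n : ℕ, HasSum (fun v : HeightOneSpectrum (𝓞 F) =>
      h v * (if absNorm v.asIdeal ≤ n then cw s n else 0)) (cw s n * S h n) := by
    intro n
    have h1 : cw s n * S h n = ∑ v ∈ L F n, h v * (if absNorm v.asIdeal ≤ n then cw s n else 0) := by
      unfold S
      rw [Finset.mul_sum]
      refine Finset.sum_congr rfl fun v hv => ?_
      rw [if_pos (mem_L.mp hv)]; ring
    rw [h1]
    apply hasSum_sum_of_ne_finset_zero
    intro v hv
    rw [mem_L] at hv
    rw [if_neg hv, mul_zero]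
  have h2 := hswap.hasSum.prod_fiberwise hfib
  have h3 : ∑' (b : ℕ × HeightOneSpectrum (𝓞 F)), h b.2 *
      (if absNorm b.2.asIdeal ≤ b.1 then cw s b.1 else 0) = ∑' v, h v * qs F s v := by
    have h4 : ∑' (b : ℕ × HeightOneSpectrum (𝓞 F)), h b.2 *
        (if absNorm b.2.asIdeal ≤ b.1 then cw s b.1 else 0) =
        ∑' x : HeightOneSpectrum (𝓞 F) × ℕ,
          h x.1 * (if absNorm x.1.asIdeal ≤ x.2 then cw s x.2 else 0) :=
      (Equiv.prodComm ℕ (HeightOneSpectrum (𝓞 F))).tsum_eq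
        (fun x : HeightOneSpectrum (𝓞 F) × ℕ =>
          h x.1 * (if absNorm x.1.asIdeal ≤ x.2 then cw s x.2 else 0))
    rw [h4, hsum.tsum_prod' (fun v => (hnorm v).summable)]
    exact tsum_congr fun v => (hnorm v).tsum_eq
  rw [← h3]
  exact h2

/-- Sign constancy. -/
theorem sign_const (S c : ℕ → ℝ) (ε B : ℝ) (hstep : ∀ n, |S (n + 1) - S n| ≤ B)
    (hc : ∀ᶠ n in atTop, B ≤ ε * c n) (hbig : ∀ᶠ n in atTop, ε * c n < |S n|) :
    ∃ η : ℝ, (η = 1 ∨ η = -1) ∧ ∀ᶠ n in atTop, ε * c n ≤ η * S n := by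
  obtain ⟨N, hN⟩ := (hc.and hbig).exists_forall_of_atTop
  have hB : 0 ≤ B := (abs_nonneg _).trans (hstep 0)
  obtain ⟨η, hη, hηN⟩ : ∃ η : ℝ, (η = 1 ∨ η = -1) ∧ η * S N = |S N| := by
    rcases abs_choice (S N) with h | h
    · exact ⟨1, Or.inl rfl, by rw [one_mul, h]⟩
    · exact ⟨-1, Or.inr rfl, by rw [h]; ring⟩
  have habs : |η| = 1 := by rcases hη with rfl | rfl <;> simp
  refine ⟨η, hη, ?_⟩
  have key : ∀ n, N ≤ n → η * S n = |S n| := by
    intro n hn
    induction n, hn using Nat.le_induction with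
    | base => exact hηN
    | succ n hn ih =>
      have h1 := hN n hn
      have h2 := hstep n
      have h3 : |η * S (n + 1) - η * S n| ≤ B := by
        rw [← mul_sub, abs_mul, habs, one_mul]; exact h2
      have h4 : 0 < η * S (n + 1) := by
        have := (abs_le.mp h3).1
        linarith [h1.1, h1.2]
      calc η * S (n + 1) = |η * S (n + 1)| := (abs_of_pos h4).symm
        _ = |S (n + 1)| := by rw [abs_mul, habs, one_mul]
  filter_upwards [eventually_ge_atTop N] with n hn
  rw [key n hn]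
  exact (hN n hn).2.le

end Pool.Agent.Work.MP_6dc561_nt
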