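import Pool.Agent.Work.MP_6dc561_nt.Count

/-!
# A Bessel inequality for natural averages over twists
-/

open Filter Topology NumberField IsDedekindDomain Ideal nonZeroDivisors Polynomial

namespace Pool.Agent.Work.MP_6dc561_nt

variable {F : Type*} [Field F] [NumberField F]

variable (F) in
theorem infinite_primes : Infinite (HeightOneSpectrum (𝓞 F)) := by
  by_contra h
  rw [not_infinite_iff_finite] at h
  have := Fintype.ofFinite (HeightOneSpectrum (𝓞 F))
  obtain ⟨s, hs, hs1⟩ := ((primeSum_atTop F).eventually_gt_atTop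
    (Fintype.card (HeightOneSpectrum (𝓞 F)) : ℝ)).and eventually_mem_nhdsWithin |>.exists
  have hs1' : (1:ℝ) < s := hs1
  unfold primeSum at hs
  rw [tsum_fintype] at hs
  have : ∑ v : HeightOneSpectrum (𝓞 F), qs F s v ≤ ∑ _v : HeightOneSpectrum (𝓞 F), 1 := by
    refine Finset.sum_le_sum fun v _ => ?_
    have := qs_le_half (K := F) hs1'.le v
    linarith
  rw [Finset.sum_const, Finset.card_univ, nsmul_eq_mul, mul_one] at this
  linarith

variable (F) in
theorem card_L_atTop : Tendsto (fun n => ((L F n).card : ℝ)) atTop atTop := by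
  have hinf := infinite_primes F
  rw [tendsto_natCast_atTop_iff]
  rw [tendsto_atTop]
  intro k
  obtain ⟨T, hT⟩ := Infinite.exists_subset_card_eq (HeightOneSpectrum (𝓞 F)) k
  filter_upwards [eventually_ge_atTop (∑ v ∈ T, absNorm v.asIdeal)] with n hn
  rw [← hT]
  apply Finset.card_le_card
  intro v hv
  rw [mem_L]
  exact (Finset.single_le_sum (f := fun v : HeightOneSpectrum (𝓞 F) => absNorm v.asIdeal)
    (fun _ _ => Nat.zero_le _) hv).trans hn

open scoped Classical in
/-- indicator -/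
noncomputable def ind (P : Set (HeightOneSpectrum (𝓞 F))) (v : HeightOneSpectrum (𝓞 F)) : ℝ :=
  if v ∈ P then 1 else 0

theorem abs_ind_le (P : Set (HeightOneSpectrum (𝓞 F))) (v : HeightOneSpectrum (𝓞 F)) :
    |ind P v| ≤ 1 := by
  unfold ind; split_ifs <;> simp

theorem ind_nonneg (P : Set (HeightOneSpectrum (𝓞 F))) (v : HeightOneSpectrum (𝓞 F)) :
    0 ≤ ind P v := by
  unfold ind; split_ifs <;> simp

theorem S_ind_ge (P : Set (HeightOneSpectrum (𝓞 F))) (hP : Pᶜ.Finite) (n : ℕ) :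
    ((L F n).card : ℝ) - hP.toFinset.card ≤ S (ind P) n := by
  classical
  unfold S
  have h1 : ((L F n).card : ℝ) = ∑ v ∈ L F n, ind P v + ∑ v ∈ L F n, (1 - ind P v) := by
    rw [← Finset.sum_add_distrib]; simp
  have h2 : ∑ v ∈ L F n, (1 - ind P v) ≤ hP.toFinset.card := by
    have h3 : ∑ v ∈ L F n, (1 - ind P v) = ∑ v ∈ (L F n).filter (fun v => v ∉ P), (1:ℝ) := by
      rw [Finset.sum_filter]
      refine Finset.sum_congr rfl fun v _ => ?_
      unfold ind
      by_cases h : v ∈ P <;> simp [h]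
    rw [h3, Finset.sum_const, nsmul_eq_mul, mul_one]
    have : (L F n).filter (fun v => v ∉ P) ⊆ hP.toFinset := by
      intro v hv
      rw [Finset.mem_filter] at hv
      rw [Set.Finite.mem_toFinset]
      exact hv.2
    exact_mod_cast Finset.card_le_card this
  linarith

theorem tsum_ind_ge (P : Set (HeightOneSpectrum (𝓞 F))) (hP : Pᶜ.Finite) {s : ℝ} (hs : 1 < s) :
    primeSum F s - hP.toFinset.card ≤ ∑' v, ind P v * qs F s v := by
  classical
  have hsum := summable_qs (K := F) hs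
  have h1 := summable_mul_qs hs (ind P) 1 (abs_ind_le P)
  unfold primeSum
  rw [sub_le_iff_le_add, ← sub_le_iff_le_add', ← hsum.tsum_sub h1]
  have h2 : ∀ v : HeightOneSpectrum (𝓞 F), v ∉ hP.toFinset →
      qs F s v - ind P v * qs F s v = 0 := by
    intro v hv
    rw [Set.Finite.mem_toFinset, Set.mem_compl_iff, not_not] at hv
    unfold ind
    rw [if_pos hv]; ring
  rw [tsum_eq_sum h2]
  calc ∑ v ∈ hP.toFinset, (qs F s v - ind P v * qs F s v) ≤ ∑ _v ∈ hP.toFinset, (1:ℝ) := by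
        refine Finset.sum_le_sum fun v _ => ?_
        have h3 := qs_le_half (K := F) hs.le v
        have h4 := qs_pos (K := F) s v
        have h5 := ind_nonneg P v
        nlinarith
    _ = hP.toFinset.card := by simp

theorem lower (h : HeightOneSpectrum (𝓞 F) → ℝ) (B : ℝ) (hB : ∀ v, |h v| ≤ B) (hB0 : 0 ≤ B)
    (P : Set (HeightOneSpectrum (𝓞 F))) (hP : Pᶜ.Finite) (ε : ℝ) (hε : 0 < ε)
    (hbig : ∀ᶠ n in atTop, ε * S (ind P) n < |S h n|) :
    ∃ η : ℝ, |η| ≤ 1 ∧ ∃ C : ℝ, ∀ s : ℝ, 1 < s →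
      ε * primeSum F s - C ≤ η * ∑' v, h v * qs F s v := by
  classical
  have hc : ∀ᶠ n in atTop, (Module.finrank ℤ (𝓞 F) * B : ℝ) ≤ ε * S (ind P) n := by
    have h1 : ∀ᶠ n in atTop, (Module.finrank ℤ (𝓞 F) * B : ℝ) / ε + hP.toFinset.card ≤
        ((L F n).card : ℝ) := (card_L_atTop F).eventually_ge_atTop _
    filter_upwards [h1] with n hn
    have h2 := S_ind_ge P hP n
    have h3 : (Module.finrank ℤ (𝓞 F) * B : ℝ) / ε ≤ S (ind P) n := by linarith
    rw [div_le_iff₀ hε] at h3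
    linarith
  obtain ⟨η, hη, hηS⟩ := sign_const (S h) (S (ind P)) ε _ (S_step h B hB hB0) hc hbig
  obtain ⟨N, hN⟩ := eventually_atTop.mp hηS
  refine ⟨η, by rcases hη with rfl | rfl <;> simp, ?_⟩
  refine ⟨ε * hP.toFinset.card + ∑ n ∈ Finset.range N, |η * S h n - ε * S (ind P) n|,
    fun s hs => ?_⟩
  have h1 := (abel hs h B hB).mul_left η
  have h2 := (abel hs (ind P) 1 (abs_ind_le P)).mul_left ε
  have h3 := h1.sub h2
  have h4 : ∑ n ∈ Finset.range N, (η * (cw s n * S h n) - ε * (cw s n * S (ind P) n)) ≤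
      η * ∑' v, h v * qs F s v - ε * ∑' v, ind P v * qs F s v := by
    rw [← h3.tsum_eq]
    refine h3.summable.sum_le_tsum _ fun n hn => ?_
    rw [Finset.mem_range, not_lt] at hn
    have h5 := hN n hn
    have h6 := cw_nonneg (by linarith : 0 ≤ s) n
    nlinarith
  have h5 : -(∑ n ∈ Finset.range N, |η * S h n - ε * S (ind P) n|) ≤
      ∑ n ∈ Finset.range N, (η * (cw s n * S h n) - ε * (cw s n * S (ind P) n)) := by
    rw [← Finset.sum_neg_distrib]
    refine Finset.sum_le_sum fun n _ => ?_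
    have h6 := cw_nonneg (by linarith : 0 ≤ s) n
    have h7 := cw_le_one (by linarith : 0 ≤ s) n
    have h8 : η * (cw s n * S h n) - ε * (cw s n * S (ind P) n) =
        cw s n * (η * S h n - ε * S (ind P) n) := by ring
    rw [h8]
    have h9 := neg_abs_le (η * S h n - ε * S (ind P) n)
    have h10 := abs_nonneg (η * S h n - ε * S (ind P) n)
    nlinarith
  have h6 := tsum_ind_ge P hP hs
  nlinarith

/-- natural average over the primes of a set with norm at most `x` -/
noncomputable def avg (P : Set (HeightOneSpectrum (𝓞 F))) (h : HeightOneSpectrum (𝓞 F) → ℝ)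
    (x : ℝ) : ℝ :=
  (∑ᶠ v ∈ {v : HeightOneSpectrum (𝓞 F) | v ∈ P ∧ (absNorm v.asIdeal : ℝ) ≤ x}, h v) /
    ({v : HeightOneSpectrum (𝓞 F) | v ∈ P ∧ (absNorm v.asIdeal : ℝ) ≤ x}.ncard : ℝ)

theorem avg_nat (P : Set (HeightOneSpectrum (𝓞 F))) (h : HeightOneSpectrum (𝓞 F) → ℝ)
    (hh : ∀ v ∉ P, h v = 0) (n : ℕ) : avg P h n = S h n / S (ind P) n := by
  classical
  unfold avg
  have hset : {v : HeightOneSpectrum (𝓞 F) | v ∈ P ∧ (absNorm v.asIdeal : ℝ) ≤ (n:ℝ)} =
      ((L F n).filter (fun v => v ∈ P) : Finset _) := by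
    ext v
    simp only [Finset.coe_filter, mem_L, Nat.cast_le]
    exact and_comm
  rw [hset]
  congr 1
  · rw [finsum_mem_coe_finset, Finset.sum_filter]
    unfold S
    refine Finset.sum_congr rfl fun v _ => ?_
    split_ifs with hv
    · rfl
    · exact (hh v hv).symm
  · rw [Set.ncard_coe_finset]
    unfold S ind
    rw [Finset.card_filter]
    push_cast
    rfl

theorem avg_abs_le (P : Set (HeightOneSpectrum (𝓞 F))) (h : HeightOneSpectrum (𝓞 F) → ℝ) (M : ℝ)
    (hM : ∀ v, |h v| ≤ M) (hM0 : 0 ≤ M) (x : ℝ) : |avg P h x| ≤ M := by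
  classical
  have hfin : {v : HeightOneSpectrum (𝓞 F) | v ∈ P ∧ (absNorm v.asIdeal : ℝ) ≤ x}.Finite := by
    refine (finite_le F ⌊x⌋₊).subset fun v hv => ?_
    exact Nat.le_floor hv.2
  unfold avg
  have hset : {v : HeightOneSpectrum (𝓞 F) | v ∈ P ∧ (absNorm v.asIdeal : ℝ) ≤ x} =
      (hfin.toFinset : Set _) := hfin.coe_toFinset.symm
  rw [hset, finsum_mem_coe_finset, Set.ncard_coe_finset, abs_div]
  rcases Nat.eq_zero_or_pos hfin.toFinset.card with h0 | hpos
  · rw [h0]; simpa using hM0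
  · have hpos' : (0:ℝ) < hfin.toFinset.card := by exact_mod_cast hpos
    rw [abs_of_pos hpos', div_le_iff₀ hpos']
    calc |∑ v ∈ hfin.toFinset, h v| ≤ ∑ v ∈ hfin.toFinset, |h v| := Finset.abs_sum_le_sum_abs _ _
      _ ≤ ∑ _v ∈ hfin.toFinset, M := Finset.sum_le_sum fun v _ => hM v
      _ = M * hfin.toFinset.card := by rw [Finset.sum_const, nsmul_eq_mul, mul_comm]

theorem natural_bessel (D : Finset (𝓞 F))
    (hD : ∀ d ∈ D, ∀ d' ∈ D, d ≠ d' → ¬ IsSquare ((d * d' : 𝓞 F) : F))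
    (g : HeightOneSpectrum (𝓞 F) → ℝ) (M : ℝ) (hg : ∀ v, |g v| ≤ M)
    (P : 𝓞 F → Set (HeightOneSpectrum (𝓞 F))) (hP : ∀ d ∈ D, (P d)ᶜ.Finite)
    (h : 𝓞 F → HeightOneSpectrum (𝓞 F) → ℝ) (hh : ∀ d ∈ D, ∀ v, h d v = chi d v * g v)
    (hPh : ∀ d ∈ D, ∀ v ∉ P d, h d v = 0) :
    ∑ d ∈ D, (liminf (fun x : ℝ => |avg (P d) (h d) x|) atTop) ^ 2 ≤ M ^ 2 := by
  classical
  have hM0 : 0 ≤ M := by
    obtain ⟨v⟩ := (infinite_primes F).nonempty
    exact (abs_nonneg _).trans (hg v)
  have hbd : ∀ d ∈ D, ∀ v, |h d v| ≤ M := by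
    intro d hd v
    rw [hh d hd, abs_mul]
    have h1 := chi_abs_le d v
    have h2 := hg v
    have h3 := abs_nonneg (chi d v)
    have h4 := abs_nonneg (g v)
    nlinarith
  set l : 𝓞 F → ℝ := fun d => liminf (fun x : ℝ => |avg (P d) (h d) x|) atTop with hl
  have hcob : ∀ d ∈ D, IsCoboundedUnder (· ≥ ·) atTop (fun x : ℝ => |avg (P d) (h d) x|) := by
    intro d hd
    apply IsBoundedUnder.isCoboundedUnder_ge
    exact isBoundedUnder_of ⟨M, fun x => avg_abs_le (P d) (h d) M (hbd d hd) hM0 x⟩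
  have hbdd : ∀ d ∈ D, IsBoundedUnder (· ≥ ·) atTop (fun x : ℝ => |avg (P d) (h d) x|) := by
    intro d hd
    exact isBoundedUnder_of ⟨0, fun x => abs_nonneg _⟩
  have hl0 : ∀ d ∈ D, 0 ≤ l d := by
    intro d hd
    exact le_liminf_of_le (hcob d hd) (Eventually.of_forall fun x => abs_nonneg _)
  set D' := D.filter (fun d => 0 < l d) with hD'
  have hsumeq : ∑ d ∈ D, l d ^ 2 = ∑ d ∈ D', l d ^ 2 := by
    rw [hD', Finset.sum_filter]
    refine Finset.sum_congr rfl fun d hd => ?_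
    split_ifs with h0
    · rfl
    · have : l d = 0 := le_antisymm (not_lt.mp h0) (hl0 d hd)
      rw [this]; ring
  change ∑ d ∈ D, l d ^ 2 ≤ M ^ 2
  rw [hsumeq]
  -- the inequality for t * l
  have key : ∀ t : ℝ, 0 < t → t < 1 → t ^ 2 * ∑ d ∈ D', l d ^ 2 ≤ M ^ 2 := by
    intro t ht0 ht1
    have hmemD : ∀ d ∈ D', d ∈ D ∧ 0 < l d := fun d hd => by
      rw [hD', Finset.mem_filter] at hd; exact hd
    have hex : ∀ d ∈ D', ∃ η : ℝ, |η| ≤ 1 ∧ ∃ C : ℝ, ∀ s : ℝ, 1 < s →
        (t * l d) * primeSum F s - C ≤ η * ∑' v, h d v * qs F s v := by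
      intro d hd'
      obtain ⟨hd, hpos⟩ := hmemD d hd'
      have htl : 0 < t * l d := mul_pos ht0 hpos
      apply lower (h d) M (hbd d hd) hM0 (P d) (hP d hd) (t * l d) htl
      have hlt : t * l d < liminf (fun x : ℝ => |avg (P d) (h d) x|) atTop := by
        change t * l d < l d
        nlinarith
      have hev := eventually_lt_of_lt_liminf hlt (hbdd d hd)
      filter_upwards [tendsto_natCast_atTop_atTop.eventually hev] with n hn
      rw [avg_nat (P d) (h d) (hPh d hd), abs_div] at hn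
      have h0 : 0 ≤ S (ind (P d)) n := Finset.sum_nonneg fun v _ => ind_nonneg _ v
      have hpos : 0 < S (ind (P d)) n := by
        rcases h0.eq_or_lt with h2 | h2
        · rw [← h2, abs_zero, div_zero] at hn
          linarith
        · exact h2
      rw [abs_of_pos hpos, lt_div_iff₀ hpos] at hn
      exact hn
    choose! η hη C hC using hex
    have := bessel D' (fun d hd d' hd' => hD d (hmemD d hd).1 d' (hmemD d' hd').1) g M hg
      (fun d => t * l d) (fun d hd => mul_pos ht0 (hmemD d hd).2) η hη (∑ d ∈ D', |C d|) (by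
      intro d hd
      filter_upwards [eventually_mem_nhdsWithin] with s hs
      have h1 := hC d hd s hs
      have h2 : C d ≤ ∑ d ∈ D', |C d| := (le_abs_self _).trans
        (Finset.single_le_sum (f := fun d => |C d|) (fun _ _ => abs_nonneg _) hd)
      have h3 : (fun v => h d v * qs F s v) = fun v => chi d v * g v * qs F s v := by
        funext v; rw [hh d (hmemD d hd).1]
      rw [h3] at h1
      linarith)
    rw [Finset.mul_sum]
    refine le_trans (le_of_eq (Finset.sum_congr rfl fun d _ => ?_)) this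
    ring
  have hlim : Tendsto (fun t : ℝ => t ^ 2 * ∑ d ∈ D', l d ^ 2) (𝓝[<] 1)
      (𝓝 (1 ^ 2 * ∑ d ∈ D', l d ^ 2)) := by
    refine Tendsto.mono_left ?_ nhdsWithin_le_nhds
    exact ((continuous_pow 2).mul continuous_const).tendsto 1
  rw [one_pow, one_mul] at hlim
  refine le_of_tendsto hlim ?_
  filter_upwards [eventually_mem_nhdsWithin,
    eventually_nhdsWithin_of_eventually_nhds (lt_mem_nhds (zero_lt_one' ℝ))] with t ht1 ht0
  exact key t ht0 ht1

end Pool.Agent.Work.MP_6dc561_nt
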