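import Pool.Agent.Work.MP_6dc561_nt.Zeta2

/-!
# Primes in a quadratic extension of a number field
-/

open Filter Topology NumberField IsDedekindDomain Ideal nonZeroDivisors

namespace Pool.Agent.Work.MP_6dc561_nt

open scoped Classical in
/-- The quadratic residue symbol of `e` at the prime `v`. -/
noncomputable def chi {F : Type*} [Field F] (e : 𝓞 F) (v : HeightOneSpectrum (𝓞 F)) : ℝ :=
  if e ∈ v.asIdeal then 0
  else if IsSquare (Ideal.Quotient.mk v.asIdeal e) then 1 else -1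

variable {F K : Type*} [Field F] [NumberField F] [Field K] [NumberField K] [Algebra F K]

theorem absNorm_over (v : HeightOneSpectrum (𝓞 F)) (w : v.asIdeal.primesOver (𝓞 K)) :
    absNorm w.1 = absNorm v.asIdeal ^ (w.1.inertiaDeg (𝓞 F)) := by
  have := v.isMaximal
  exact (absNorm_pow_inertiaDeg v.asIdeal w.1).symm

theorem one_le_e (v : HeightOneSpectrum (𝓞 F)) (w : v.asIdeal.primesOver (𝓞 K)) :
    1 ≤ w.1.ramificationIdx (𝓞 F) := by
  have := w.1.ramificationIdx_pos (𝓞 F)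
  omega

theorem one_le_f (v : HeightOneSpectrum (𝓞 F)) (w : v.asIdeal.primesOver (𝓞 K)) :
    1 ≤ w.1.inertiaDeg (𝓞 F) := by
  have := w.1.inertiaDeg_pos (𝓞 F)
  omega

theorem sum_ef (h2 : Module.finrank F K = 2) (v : HeightOneSpectrum (𝓞 F))
    [Fintype (v.asIdeal.primesOver (𝓞 K))] :
    ∑ q : v.asIdeal.primesOver (𝓞 K), q.1.ramificationIdx (𝓞 F) * q.1.inertiaDeg (𝓞 F) = 2 := by
  have := v.isMaximal
  rw [sum_ramification_inertia_eq_finrank, ← h2]
  first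
    | exact IsFractionRing.finrank_eq (𝓞 F) F (𝓞 K) K
    | exact (IsFractionRing.finrank_eq (𝓞 F) F (𝓞 K) K).symm

/-- the sum of `q_w^(-s)` over the primes `w` above `v` -/
noncomputable def T (K : Type*) [Field K] [NumberField K] [Algebra F K] (s : ℝ)
    (v : HeightOneSpectrum (𝓞 F)) : ℝ :=
  ∑' w : v.asIdeal.primesOver (𝓞 K), (absNorm w.1 : ℝ) ^ (-s)

theorem term_le {s : ℝ} (hs : 1 ≤ s) (v : HeightOneSpectrum (𝓞 F))
    (w : v.asIdeal.primesOver (𝓞 K)) (k : ℕ) (hk : k ≤ w.1.inertiaDeg (𝓞 F)) :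
    (absNorm w.1 : ℝ) ^ (-s) ≤ qs F s v ^ k := by
  rw [absNorm_over, Nat.cast_pow]
  unfold qs
  have h2 : (2:ℝ) ≤ absNorm v.asIdeal := by exact_mod_cast two_le_norm v
  rw [← Real.rpow_natCast, ← Real.rpow_mul (by positivity), ← Real.rpow_natCast,
    ← Real.rpow_mul (by positivity)]
  apply Real.rpow_le_rpow_of_exponent_le (by linarith)
  have : (k:ℝ) ≤ (w.1.inertiaDeg (𝓞 F) : ℝ) := by exact_mod_cast hk
  nlinarith

theorem card_le (h2 : Module.finrank F K = 2) (v : HeightOneSpectrum (𝓞 F))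
    [Fintype (v.asIdeal.primesOver (𝓞 K))] :
    Fintype.card (v.asIdeal.primesOver (𝓞 K)) ≤ 2 := by
  rw [← sum_ef h2 v, Fintype.card, Finset.card_eq_sum_ones]
  refine Finset.sum_le_sum fun q _ => ?_
  exact Right.one_le_mul (one_le_e v q) (one_le_f v q)

theorem T_le (h2 : Module.finrank F K = 2) {s : ℝ} (hs : 1 ≤ s) (v : HeightOneSpectrum (𝓞 F))
    (k : ℕ) (hk : ∀ w : v.asIdeal.primesOver (𝓞 K), k ≤ w.1.inertiaDeg (𝓞 F)) :
    T K s v ≤ 2 * qs F s v ^ k := by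
  have := v.isMaximal
  unfold T
  rw [tsum_fintype]
  calc ∑ w : v.asIdeal.primesOver (𝓞 K), (absNorm w.1 : ℝ) ^ (-s)
      ≤ ∑ _w : v.asIdeal.primesOver (𝓞 K), qs F s v ^ k :=
        Finset.sum_le_sum fun w _ => term_le hs v w k (hk w)
    _ = (Fintype.card (v.asIdeal.primesOver (𝓞 K)) : ℝ) * qs F s v ^ k := by
        rw [Finset.sum_const, Finset.card_univ, nsmul_eq_mul]
    _ ≤ 2 * qs F s v ^ k := by
        have h3 := card_le (K := K) h2 v
        have h4 : (Fintype.card (v.asIdeal.primesOver (𝓞 K)) : ℝ) ≤ 2 := by exact_mod_cast h3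
        have := pow_nonneg (qs_pos s v).le k
        nlinarith

theorem T_nonneg (s : ℝ) (v : HeightOneSpectrum (𝓞 F)) : 0 ≤ T K s v :=
  tsum_nonneg fun _ => by positivity

/-- if there are two distinct primes above `v` then `v` splits -/
theorem T_split (h2 : Module.finrank F K = 2) (s : ℝ) (v : HeightOneSpectrum (𝓞 F))
    (w₁ w₂ : v.asIdeal.primesOver (𝓞 K)) (hne : w₁ ≠ w₂) :
    T K s v = 2 * qs F s v := by
  classical
  have := v.isMaximal
  unfold T
  rw [tsum_fintype]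
  have hcard : Fintype.card (v.asIdeal.primesOver (𝓞 K)) = 2 := by
    apply le_antisymm (card_le h2 v)
    exact Fintype.one_lt_card_iff.mpr ⟨w₁, w₂, hne⟩
  have hf : ∀ w : v.asIdeal.primesOver (𝓞 K), w.1.inertiaDeg (𝓞 F) = 1 := by
    have hsum := sum_ef h2 (K := K) v
    have hge : ∀ w : v.asIdeal.primesOver (𝓞 K),
        1 ≤ w.1.ramificationIdx (𝓞 F) * w.1.inertiaDeg (𝓞 F) :=
      fun w => Right.one_le_mul (one_le_e v w) (one_le_f v w)
    have hsum1 : ∑ _w : v.asIdeal.primesOver (𝓞 K), 1 =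
        ∑ q : v.asIdeal.primesOver (𝓞 K), q.1.ramificationIdx (𝓞 F) * q.1.inertiaDeg (𝓞 F) := by
      rw [hsum, Finset.sum_const, Finset.card_univ, hcard]; rfl
    have heq := (Finset.sum_eq_sum_iff_of_le (fun w _ => hge w)).mp hsum1
    intro w
    exact Nat.eq_one_of_mul_eq_one_left (heq w (Finset.mem_univ _)).symm
  have hterm : ∀ w : v.asIdeal.primesOver (𝓞 K), (absNorm w.1 : ℝ) ^ (-s) = qs F s v := by
    intro w
    rw [absNorm_over, hf w, pow_one]; rfl
  rw [Finset.sum_congr rfl (fun w _ => hterm w), Finset.sum_const, Finset.card_univ, hcard,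
    nsmul_eq_mul]
  norm_num

/-- two primes above `v` if the residue symbol is `1` -/
theorem exists_two (e : 𝓞 F) (θ : 𝓞 K) (hθ : θ ^ 2 = algebraMap (𝓞 F) (𝓞 K) e)
    (σ : 𝓞 K →ₐ[𝓞 F] 𝓞 K) (hσ : σ θ = -θ)
    (v : HeightOneSpectrum (𝓞 F)) (h2v : (2 : 𝓞 F) ∉ v.asIdeal) (hev : e ∉ v.asIdeal)
    (hsq : IsSquare (Ideal.Quotient.mk v.asIdeal e)) :
    ∃ w₁ w₂ : v.asIdeal.primesOver (𝓞 K), w₁ ≠ w₂ := by
  have hmax := v.isMaximal
  obtain ⟨r, hr⟩ := hsq
  obtain ⟨t, rfl⟩ := Ideal.Quotient.mk_surjective r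
  have ht : e - t ^ 2 ∈ v.asIdeal := by
    rw [← Ideal.Quotient.eq_zero_iff_mem, map_sub, hr, map_pow]; ring
  have htv : t ∉ v.asIdeal := by
    intro h
    apply hev
    have h3 : t ^ 2 ∈ v.asIdeal := by rw [sq]; exact v.asIdeal.mul_mem_left _ h
    have := v.asIdeal.add_mem ht h3
    simpa using this
  obtain ⟨P, hPm, hPo⟩ := exists_maximal_ideal_liesOver_of_isIntegral (S := 𝓞 K) v.asIdeal
  have hPp : P.IsPrime := hPm.isPrime
  have hover : ∀ x : 𝓞 F, algebraMap (𝓞 F) (𝓞 K) x ∈ P ↔ x ∈ v.asIdeal := by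
    intro x
    rw [hPo.over]; rfl
  -- the conjugate prime
  set Q : Ideal (𝓞 K) := P.comap σ.toRingHom with hQ
  have hQp : Q.IsPrime := Ideal.comap_isPrime _ _
  have hQo : Q.LiesOver v.asIdeal := by
    constructor
    ext x
    rw [Ideal.under_def, Ideal.mem_comap, hQ, Ideal.mem_comap]
    have : σ.toRingHom (algebraMap (𝓞 F) (𝓞 K) x) = algebraMap (𝓞 F) (𝓞 K) x := σ.commutes x
    rw [this, hover]
  refine ⟨⟨P, hPp, hPo⟩, ⟨Q, hQp, hQo⟩, ?_⟩
  intro heq
  have hPQ : P = Q := congrArg (fun z => z.1) heq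
  -- P contains θ - t or θ + t
  have hprod : (θ - algebraMap _ _ t) * (θ + algebraMap _ _ t) ∈ P := by
    have : (θ - algebraMap _ _ t) * (θ + algebraMap _ _ t) =
        algebraMap (𝓞 F) (𝓞 K) (e - t ^ 2) := by
      rw [map_sub, map_pow, ← hθ]; ring
    rw [this, hover]
    exact ht
  have hboth : θ - algebraMap _ _ t ∈ P ∧ θ + algebraMap _ _ t ∈ P := by
    rcases hPp.mem_or_mem hprod with h | h
    · refine ⟨h, ?_⟩
      have h' : -(θ + algebraMap _ _ t) ∈ Q := by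
        rw [hQ, Ideal.mem_comap]
        have : σ.toRingHom (-(θ + algebraMap _ _ t)) = θ - algebraMap _ _ t := by
          have h1 : σ.toRingHom θ = -θ := hσ
          have h2 : σ.toRingHom (algebraMap (𝓞 F) (𝓞 K) t) = algebraMap _ _ t := σ.commutes t
          rw [map_neg, map_add, h1, h2]; ring
        rw [this]; exact h
      rw [← hPQ] at h'
      simpa using P.neg_mem h'
    · refine ⟨?_, h⟩
      have h' : -(θ - algebraMap _ _ t) ∈ Q := by
        rw [hQ, Ideal.mem_comap]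
        have : σ.toRingHom (-(θ - algebraMap _ _ t)) = θ + algebraMap _ _ t := by
          have h1 : σ.toRingHom θ = -θ := hσ
          have h2 : σ.toRingHom (algebraMap (𝓞 F) (𝓞 K) t) = algebraMap _ _ t := σ.commutes t
          rw [map_neg, map_sub, h1, h2]; ring
        rw [this]; exact h
      rw [← hPQ] at h'
      simpa using P.neg_mem h'
  have h2t : algebraMap (𝓞 F) (𝓞 K) (2 * t) ∈ P := by
    have := P.sub_mem hboth.2 hboth.1
    have h3 : θ + algebraMap _ _ t - (θ - algebraMap _ _ t) = algebraMap (𝓞 F) (𝓞 K) (2 * t) := by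
      rw [map_mul, map_ofNat]; ring
    rwa [h3] at this
  rw [hover] at h2t
  rcases v.isPrime.mem_or_mem h2t with h | h
  · exact h2v h
  · exact htv h

/-- residue degree at least two if the residue symbol is `-1` -/
theorem two_le_f (e : 𝓞 F) (θ : 𝓞 K) (hθ : θ ^ 2 = algebraMap (𝓞 F) (𝓞 K) e)
    (v : HeightOneSpectrum (𝓞 F)) (hsq : ¬ IsSquare (Ideal.Quotient.mk v.asIdeal e))
    (w : v.asIdeal.primesOver (𝓞 K)) : 2 ≤ w.1.inertiaDeg (𝓞 F) := by
  have hmax := v.isMaximal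
  by_contra hlt
  have h1 : w.1.inertiaDeg (𝓞 F) = 1 := by
    have := one_le_f v w
    omega
  have hw1 : w.1.IsPrime := w.2.1
  have hwo : w.1.LiesOver v.asIdeal := w.2.2
  have hwne : w.1 ≠ ⊥ := ne_bot_of_mem_primesOver v.ne_bot w.2
  have hcard : absNorm w.1 = absNorm v.asIdeal := by rw [absNorm_over, h1, pow_one]
  have hfinv : Finite (𝓞 F ⧸ v.asIdeal) := v.asIdeal.finiteQuotientOfFreeOfNeBot v.ne_bot
  have hfinw : Finite (𝓞 K ⧸ w.1) := w.1.finiteQuotientOfFreeOfNeBot hwne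
  have hc : Nat.card (𝓞 F ⧸ v.asIdeal) = Nat.card (𝓞 K ⧸ w.1) := by
    rw [absNorm_apply, absNorm_apply, Submodule.cardQuot_apply, Submodule.cardQuot_apply] at hcard
    exact hcard.symm
  have hle : v.asIdeal ≤ w.1.comap (algebraMap (𝓞 F) (𝓞 K)) := hwo.over.le
  have hge : w.1.comap (algebraMap (𝓞 F) (𝓞 K)) ≤ v.asIdeal := hwo.over.ge
  obtain ⟨φ, hφ⟩ : ∃ φ : (𝓞 F ⧸ v.asIdeal) →+* (𝓞 K ⧸ w.1), ∀ x : 𝓞 F,
      φ (Ideal.Quotient.mk v.asIdeal x) = Ideal.Quotient.mk w.1 (algebraMap (𝓞 F) (𝓞 K) x) :=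
    ⟨Ideal.quotientMap w.1 (algebraMap (𝓞 F) (𝓞 K)) hle, fun x => Ideal.quotientMap_mk⟩
  have hinj : Function.Injective φ := by
    rw [injective_iff_map_eq_zero]
    intro a ha
    obtain ⟨x, rfl⟩ := Ideal.Quotient.mk_surjective a
    rw [hφ, Ideal.Quotient.eq_zero_iff_mem] at ha
    rw [Ideal.Quotient.eq_zero_iff_mem]
    exact hge ha
  have hbij : Function.Bijective φ := by
    rw [Nat.bijective_iff_injective_and_card]
    exact ⟨hinj, hc⟩
  obtain ⟨r, hr⟩ := hbij.2 (Ideal.Quotient.mk w.1 θ)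
  apply hsq
  refine ⟨r, hinj ?_⟩
  rw [map_mul, hr, hφ, ← map_mul, ← sq, hθ]

end Pool.Agent.Work.MP_6dc561_nt
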