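import Mathlib

/-!
# The prime zeta sum of a number field near `s = 1`
-/

open Filter Topology NumberField IsDedekindDomain Ideal nonZeroDivisors

namespace Pool.Agent.Work.MP_6dc561_nt

variable (K : Type*) [Field K] [NumberField K]

/-- nonzero integral ideals -/
abbrev NzIdeal := {I : Ideal (𝓞 K) // I ≠ ⊥}

/-- sum over the nonzero integral ideals of `N(I)^(-s)` -/
noncomputable def idealSum (s : ℝ) : ℝ := ∑' I : NzIdeal K, (absNorm I.1 : ℝ) ^ (-s)

/-- number of ideals of norm `n` -/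
noncomputable def cnt (n : ℕ) : ℕ := Nat.card {I : Ideal (𝓞 K) // absNorm I = n}

/-- the real Dirichlet series -/
noncomputable def zr (s : ℝ) (n : ℕ) : ℝ := if n = 0 then 0 else (cnt K n : ℝ) * (n : ℝ) ^ (-s)

theorem zr_nonneg (s : ℝ) (n : ℕ) : 0 ≤ zr K s n := by
  unfold zr
  split_ifs
  · exact le_rfl
  · positivity

theorem term_eq (s : ℝ) (n : ℕ) :
    LSeries.term (fun n ↦ ((Nat.card {I : Ideal (𝓞 K) // absNorm I = n} : ℕ) : ℂ)) (s : ℂ) n =
      ((zr K s n : ℝ) : ℂ) := by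
  unfold zr cnt
  rcases eq_or_ne n 0 with rfl | hn
  · simp
  · rw [LSeries.term_of_ne_zero hn, if_neg hn]
    push_cast
    rw [div_eq_mul_inv]
    congr 1
    rw [Real.rpow_neg (by positivity), Complex.ofReal_inv, Complex.ofReal_cpow (by positivity)]
    simp

theorem dedekindZeta_eq (s : ℝ) : dedekindZeta K (s : ℂ) = ((∑' n, zr K s n : ℝ) : ℂ) := by
  unfold dedekindZeta LSeries
  rw [Complex.ofReal_tsum]
  exact tsum_congr fun n => term_eq K s n

theorem tendsto_zr : Tendsto (fun s : ℝ ↦ (s - 1) * ∑' n, zr K s n) (𝓝[>] 1)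
    (𝓝 (dedekindZeta_residue K)) := by
  have h := tendsto_sub_one_mul_dedekindZeta_nhdsGT K
  have h2 := (Complex.continuous_re.tendsto _).comp h
  simp only [Complex.ofReal_re] at h2
  refine h2.congr fun s => ?_
  simp only [Function.comp]
  rw [dedekindZeta_eq, ← Complex.ofReal_one, ← Complex.ofReal_sub, ← Complex.ofReal_mul,
    Complex.ofReal_re]

theorem exists_summable : ∀ᶠ s : ℝ in 𝓝[>] 1, Summable (zr K s) := by
  have h := (tendsto_zr K).eventually_ne (dedekindZeta_residue_ne_zero K)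
  filter_upwards [h] with s hs
  by_contra hns
  rw [tsum_eq_zero_of_not_summable hns] at hs
  simp at hs

theorem summable_zr {s : ℝ} (hs : 1 < s) : Summable (zr K s) := by
  obtain ⟨t, ht, h1, h2⟩ : ∃ t : ℝ, Summable (zr K t) ∧ 1 < t ∧ t < s := by
    have h := (exists_summable K).and
      ((eventually_mem_nhdsWithin : ∀ᶠ t : ℝ in 𝓝[>] 1, t ∈ Set.Ioi (1:ℝ)).and
        (eventually_nhdsWithin_of_eventually_nhds (gt_mem_nhds hs)))
    obtain ⟨t, h1, h2, h3⟩ := h.exists
    exact ⟨t, h1, h2, h3⟩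
  refine Summable.of_nonneg_of_le (zr_nonneg K s) (fun n => ?_) ht
  unfold zr
  rcases eq_or_ne n 0 with rfl | hn
  · simp
  · rw [if_neg hn, if_neg hn]
    have h1n : (1:ℝ) ≤ n := by exact_mod_cast Nat.one_le_iff_ne_zero.mpr hn
    gcongr

theorem summable_ideal {s : ℝ} (hs : 1 < s) :
    Summable (fun I : NzIdeal K => (absNorm I.1 : ℝ) ^ (-s)) ∧
      idealSum K s = ∑' n, zr K s n := by
  set f : NzIdeal K → ℝ := fun I => (absNorm I.1 : ℝ) ^ (-s) with hf
  set e := Equiv.sigmaFiberEquiv (fun I : NzIdeal K => absNorm I.1) with he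
  have hfib : ∀ n : ℕ, Finite {I : NzIdeal K // absNorm I.1 = n} := by
    intro n
    have := Ideal.finite_setOfPred_absNorm_eq (S := 𝓞 K) n
    have h2 : Finite {I : Ideal (𝓞 K) // absNorm I = n} := this.to_subtype
    refine Finite.of_injective (fun x : {I : NzIdeal K // absNorm I.1 = n} =>
      (⟨x.1.1, x.2⟩ : {I : Ideal (𝓞 K) // absNorm I = n})) ?_
    intro x y hxy
    apply Subtype.ext
    apply Subtype.ext
    exact congrArg (fun z => z.1) hxy
  have hcard : ∀ n : ℕ, n ≠ 0 → Nat.card {I : NzIdeal K // absNorm I.1 = n} = cnt K n := by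
    intro n hn
    unfold cnt
    refine Nat.card_congr ⟨fun x => ⟨x.1.1, x.2⟩, fun x => ⟨⟨x.1, ?_⟩, x.2⟩, ?_, ?_⟩
    · intro h0
      have := x.2
      rw [h0] at this
      simp at this
      exact hn this.symm
    · intro x; rfl
    · intro x; rfl
  have hsum : ∀ n : ℕ, ∑' x : {I : NzIdeal K // absNorm I.1 = n}, f (e ⟨n, x⟩) = zr K s n := by
    intro n
    have hfin := hfib n
    haveI := Fintype.ofFinite {I : NzIdeal K // absNorm I.1 = n}
    rw [tsum_fintype]
    have : ∀ x : {I : NzIdeal K // absNorm I.1 = n}, f (e ⟨n, x⟩) = (n : ℝ) ^ (-s) := by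
      intro x
      simp only [hf, he, Equiv.sigmaFiberEquiv_apply]
      rw [x.2]
    rw [Finset.sum_congr rfl (fun x _ => this x), Finset.sum_const, Finset.card_univ,
      ← Nat.card_eq_fintype_card]
    unfold zr
    rcases eq_or_ne n 0 with rfl | hn
    · rw [if_pos rfl]
      have : IsEmpty {I : NzIdeal K // absNorm I.1 = 0} := by
        refine ⟨fun x => x.1.2 ?_⟩
        exact Ideal.absNorm_eq_zero_iff.mp x.2
      rw [Nat.card_of_isEmpty, zero_smul]
    · rw [if_neg hn, hcard n hn, nsmul_eq_mul]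
  have hsummable : Summable (f ∘ e) := by
    refine (summable_sigma_of_nonneg (fun x => ?_)).mpr ⟨fun n => ?_, ?_⟩
    · simp only [Function.comp, hf]; positivity
    · have := hfib n
      exact Summable.of_finite
    · simp only [Function.comp]
      simp_rw [hsum]
      exact summable_zr K hs
  have hS : Summable f := e.summable_iff.mp hsummable
  refine ⟨hS, ?_⟩
  have h1 : idealSum K s = ∑' p, (f ∘ e) p := (e.tsum_eq f).symm
  rw [h1, Summable.tsum_sigma' (fun n => by have := hfib n; exact Summable.of_finite)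
    hsummable]
  exact tsum_congr hsum

theorem tendsto_idealSum : Tendsto (fun s : ℝ ↦ (s - 1) * idealSum K s) (𝓝[>] 1)
    (𝓝 (dedekindZeta_residue K)) := by
  refine (tendsto_zr K).congr' ?_
  filter_upwards [eventually_mem_nhdsWithin] with s hs
  rw [(summable_ideal K hs).2]

/-- `q_w^(-s)` -/
noncomputable def qs (s : ℝ) (w : HeightOneSpectrum (𝓞 K)) : ℝ := (absNorm w.asIdeal : ℝ) ^ (-s)

variable {K}

theorem two_le_norm (w : HeightOneSpectrum (𝓞 K)) : 2 ≤ absNorm w.asIdeal := by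
  have h0 : absNorm w.asIdeal ≠ 0 := by
    rw [Ne, Ideal.absNorm_eq_zero_iff]; exact w.ne_bot
  have h1 : absNorm w.asIdeal ≠ 1 := by
    rw [Ne, Ideal.absNorm_eq_one_iff]; exact w.isPrime.ne_top
  omega

theorem qs_pos (s : ℝ) (w : HeightOneSpectrum (𝓞 K)) : 0 < qs K s w := by
  unfold qs
  have := two_le_norm w
  positivity

theorem qs_le_half {s : ℝ} (hs : 1 ≤ s) (w : HeightOneSpectrum (𝓞 K)) : qs K s w ≤ 1 / 2 := by
  unfold qs
  have h := two_le_norm w
  have h2 : (2:ℝ) ≤ absNorm w.asIdeal := by exact_mod_cast h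
  calc (absNorm w.asIdeal : ℝ) ^ (-s) ≤ (absNorm w.asIdeal : ℝ) ^ (-1 : ℝ) :=
        Real.rpow_le_rpow_of_exponent_le (by linarith) (by linarith)
    _ = ((absNorm w.asIdeal : ℝ))⁻¹ := by rw [Real.rpow_neg_one]
    _ ≤ 1 / 2 := by
        rw [one_div]
        exact inv_anti₀ (by norm_num) h2

theorem qs_sq_le {s : ℝ} (hs : 1 ≤ s) (w : HeightOneSpectrum (𝓞 K)) :
    qs K s w ^ 2 ≤ qs K 2 w := by
  unfold qs
  have h := two_le_norm w
  have h2 : (2:ℝ) ≤ absNorm w.asIdeal := by exact_mod_cast h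
  rw [← Real.rpow_natCast, ← Real.rpow_mul (by positivity)]
  apply Real.rpow_le_rpow_of_exponent_le (by linarith)
  push_cast
  linarith

theorem summable_qs {s : ℝ} (hs : 1 < s) : Summable (qs K s) := by
  have h := (summable_ideal K hs).1
  have hinj : Function.Injective (fun w : HeightOneSpectrum (𝓞 K) =>
      (⟨w.asIdeal, w.ne_bot⟩ : NzIdeal K)) := by
    intro a b hab
    exact HeightOneSpectrum.ext (congrArg (fun z : NzIdeal K => z.1) hab)
  have h2 := h.comp_injective hinj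
  refine h2.congr (fun w => ?_)
  simp only [qs, Function.comp]

theorem dvd_prod_iff (t : Finset (HeightOneSpectrum (𝓞 K))) (w : HeightOneSpectrum (𝓞 K)) :
    w.asIdeal ∣ ∏ u ∈ t, u.asIdeal ↔ w ∈ t := by
  constructor
  · intro h
    obtain ⟨u, hu, hd⟩ := (Prime.dvd_finsetProd_iff w.prime _).mp h
    have hle : u.asIdeal ≤ w.asIdeal := Ideal.le_of_dvd hd
    have : u.asIdeal = w.asIdeal := (u.isMaximal.eq_of_le w.isPrime.ne_top hle)
    rw [← HeightOneSpectrum.ext this]
    exact hu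
  · intro h
    exact Finset.dvd_prod_of_mem _ h

theorem prod_one_add_le {s : ℝ} (hs : 1 < s) (W : Finset (HeightOneSpectrum (𝓞 K))) :
    ∏ w ∈ W, (1 + qs K s w) ≤ idealSum K s := by
  rw [Finset.prod_one_add]
  have hne : ∀ t : Finset (HeightOneSpectrum (𝓞 K)), ∏ u ∈ t, u.asIdeal ≠ ⊥ := by
    intro t
    rw [Ne, ← Ideal.zero_eq_bot, Finset.prod_eq_zero_iff]
    rintro ⟨u, _, hu⟩
    exact u.ne_bot hu
  set g : Finset (HeightOneSpectrum (𝓞 K)) → NzIdeal K := fun t => ⟨∏ u ∈ t, u.asIdeal, hne t⟩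
    with hg
  have hginj : Function.Injective g := by
    intro a b hab
    have h1 : ∏ u ∈ a, u.asIdeal = ∏ u ∈ b, u.asIdeal := congrArg (fun z : NzIdeal K => z.1) hab
    ext w
    rw [← dvd_prod_iff, ← dvd_prod_iff, h1]
  have hval : ∀ t : Finset (HeightOneSpectrum (𝓞 K)), ∏ i ∈ t, qs K s i =
      (absNorm (g t).1 : ℝ) ^ (-s) := by
    intro t
    simp only [hg, qs]
    rw [map_prod, Nat.cast_prod, ← Real.finsetProd_rpow _ _ (fun i _ => by positivity)]
  calc ∑ t ∈ W.powerset, ∏ i ∈ t, qs K s i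
      = ∑ t ∈ W.powerset, (absNorm (g t).1 : ℝ) ^ (-s) := Finset.sum_congr rfl (fun t _ => hval t)
    _ = ∑ I ∈ W.powerset.map ⟨g, hginj⟩, (absNorm I.1 : ℝ) ^ (-s) := by
        rw [Finset.sum_map]; rfl
    _ ≤ idealSum K s := Summable.sum_le_tsum _ (fun _ _ => by positivity) (summable_ideal K hs).1

end Pool.Agent.Work.MP_6dc561_nt
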