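import Pool.Agent.Work.MP_6dc561_nt.Zeta

/-!
# The prime zeta sum of a number field near `s = 1`, part 2
-/

open Filter Topology NumberField IsDedekindDomain Ideal nonZeroDivisors

namespace Pool.Agent.Work.MP_6dc561_nt

variable {K : Type*} [Field K] [NumberField K]

open scoped Classical in
/-- exponent of `w` in `I` -/
noncomputable def ex (I : Ideal (𝓞 K)) (w : HeightOneSpectrum (𝓞 K)) : ℕ :=
  multiplicity w.asIdeal I

theorem eq_prod_of_support {I : Ideal (𝓞 K)} (hI : I ≠ ⊥) (W : Finset (HeightOneSpectrum (𝓞 K)))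
    (hW : ∀ w : HeightOneSpectrum (𝓞 K), w.asIdeal ∣ I → w ∈ W) :
    I = ∏ w ∈ W, w.asIdeal ^ ex I w := by
  have h := Ideal.finprod_heightOneSpectrum_pow_multiplicity hI
  conv_lhs => rw [← h]
  rw [finprod_eq_prod_of_mulSupport_subset]
  · rfl
  · intro w hw
    rw [Function.mem_mulSupport] at hw
    apply hW
    by_contra hnd
    apply hw
    rw [multiplicity_eq_zero.mpr hnd, pow_zero]

theorem norm_rpow_eq {I : Ideal (𝓞 K)} (hI : I ≠ ⊥) (W : Finset (HeightOneSpectrum (𝓞 K)))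
    (hW : ∀ w : HeightOneSpectrum (𝓞 K), w.asIdeal ∣ I → w ∈ W) (s : ℝ) :
    (absNorm I : ℝ) ^ (-s) = ∏ w ∈ W, qs K s w ^ ex I w := by
  conv_lhs => rw [eq_prod_of_support hI W hW]
  rw [map_prod, Nat.cast_prod, ← Real.finsetProd_rpow _ _ (fun i _ => by positivity)]
  refine Finset.prod_congr rfl fun w _ => ?_
  unfold qs
  rw [map_pow, Nat.cast_pow, ← Real.rpow_natCast, ← Real.rpow_mul (by positivity),
    ← Real.rpow_natCast, ← Real.rpow_mul (by positivity), mul_comm]

theorem finite_dvd {I : Ideal (𝓞 K)} (hI : I ≠ ⊥) :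
    {w : HeightOneSpectrum (𝓞 K) | w.asIdeal ∣ I}.Finite :=
  Ideal.finite_factors hI

theorem sum_le_prod {s : ℝ} (hs : 1 < s) (T : Finset (NzIdeal K)) :
    ∃ W : Finset (HeightOneSpectrum (𝓞 K)),
      ∑ I ∈ T, (absNorm I.1 : ℝ) ^ (-s) ≤ ∏ w ∈ W, (1 - qs K s w)⁻¹ := by
  classical
  have hfin : (⋃ I ∈ T, {w : HeightOneSpectrum (𝓞 K) | w.asIdeal ∣ I.1}).Finite :=
    Set.Finite.biUnion T.finite_toSet (fun I _ => finite_dvd I.2)
  set W := hfin.toFinset with hWdef
  have hW : ∀ I ∈ T, ∀ w : HeightOneSpectrum (𝓞 K), w.asIdeal ∣ I.1 → w ∈ W := by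
    intro I hI w hw
    rw [hWdef, Set.Finite.mem_toFinset]
    simp only [Set.mem_iUnion]
    exact ⟨I, hI, hw⟩
  refine ⟨W, ?_⟩
  -- bound on exponents
  obtain ⟨L, hL⟩ : ∃ L : ℕ, ∀ I ∈ T, ∀ w ∈ W, ex I.1 w < L := by
    refine ⟨(∑ I ∈ T, ∑ w ∈ W, ex I.1 w) + 1, fun I hI w hw => ?_⟩
    have h1 : ex I.1 w ≤ ∑ w ∈ W, ex I.1 w :=
      Finset.single_le_sum (f := fun w => ex I.1 w) (fun _ _ => Nat.zero_le _) hw
    have h2 : ∑ w ∈ W, ex I.1 w ≤ ∑ I ∈ T, ∑ w ∈ W, ex I.1 w :=
      Finset.single_le_sum (f := fun I : NzIdeal K => ∑ w ∈ W, ex I.1 w)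
        (fun _ _ => Nat.zero_le _) hI
    omega
  have hx0 : ∀ w, 0 ≤ qs K s w := fun w => (qs_pos s w).le
  have hx1 : ∀ w, qs K s w < 1 := fun w => lt_of_le_of_lt (qs_le_half hs.le w) (by norm_num)
  have hgeom : ∀ w ∈ W, ∑ e ∈ Finset.range L, qs K s w ^ e ≤ (1 - qs K s w)⁻¹ := by
    intro w _
    rw [← tsum_geometric_of_lt_one (hx0 w) (hx1 w)]
    exact Summable.sum_le_tsum _ (fun _ _ => pow_nonneg (hx0 w) _)
      (summable_geometric_of_lt_one (hx0 w) (hx1 w))
  refine le_trans ?_ (Finset.prod_le_prod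
    (fun w _ => Finset.sum_nonneg (fun e _ => pow_nonneg (hx0 w) e)) hgeom)
  rw [Finset.prod_sum]
  -- the injection
  set g : NzIdeal K → (∀ w ∈ W, ℕ) := fun I w _ => ex I.1 w with hg
  have hginj : Set.InjOn g T := by
    intro I hI J hJ hIJ
    apply Subtype.ext
    rw [eq_prod_of_support I.2 W (hW I hI), eq_prod_of_support J.2 W (hW J hJ)]
    refine Finset.prod_congr rfl fun w hw => ?_
    have : ex I.1 w = ex J.1 w := congrFun (congrFun hIJ w) hw
    rw [this]
  calc ∑ I ∈ T, (absNorm I.1 : ℝ) ^ (-s)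
      = ∑ I ∈ T, ∏ x ∈ W.attach, qs K s x.1 ^ (g I x.1 x.2) := by
        refine Finset.sum_congr rfl fun I hI => ?_
        rw [norm_rpow_eq I.2 W (hW I hI) s]
        rw [← Finset.prod_attach W (fun w => qs K s w ^ ex I.1 w)]
    _ = ∑ p ∈ T.image g, ∏ x ∈ W.attach, qs K s x.1 ^ (p x.1 x.2) := by
        rw [Finset.sum_image hginj]
    _ ≤ ∑ p ∈ W.pi fun _ => Finset.range L, ∏ x ∈ W.attach, qs K s x.1 ^ (p x.1 x.2) := by
        refine Finset.sum_le_sum_of_subset_of_nonneg ?_ ?_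
        · intro p hp
          rw [Finset.mem_image] at hp
          obtain ⟨I, hI, rfl⟩ := hp
          rw [Finset.mem_pi]
          intro w hw
          rw [Finset.mem_range]
          exact hL I hI w hw
        · intro p _ _
          exact Finset.prod_nonneg fun x _ => pow_nonneg (hx0 _) _

variable (K) in
/-- the prime zeta sum -/
noncomputable def primeSum (s : ℝ) : ℝ := ∑' w : HeightOneSpectrum (𝓞 K), qs K s w

theorem inv_le_exp {x : ℝ} (h0 : 0 ≤ x) (h1 : x ≤ 1 / 2) : (1 - x)⁻¹ ≤ Real.exp (x + 2 * x ^ 2) := by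
  have hpos : 0 < 1 - x := by linarith
  have hlog := Real.one_sub_inv_le_log_of_pos hpos
  have h2 : (1 - x)⁻¹ ≤ 1 + x + 2 * x ^ 2 := by
    rw [inv_le_iff_one_le_mul₀ hpos]
    nlinarith
  have h3 : -Real.log (1 - x) ≤ x + 2 * x ^ 2 := by linarith
  rw [← Real.log_inv] at h3
  exact (Real.log_le_iff_le_exp (by positivity)).mp h3

theorem idealSum_le {s : ℝ} (hs : 1 < s) :
    idealSum K s ≤ Real.exp (primeSum K s + 2 * primeSum K 2) := by
  refine Real.tsum_le_of_sum_le (fun _ => by positivity) (fun T => ?_)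
  obtain ⟨W, hW⟩ := sum_le_prod hs T
  refine hW.trans ?_
  calc ∏ w ∈ W, (1 - qs K s w)⁻¹ ≤ ∏ w ∈ W, Real.exp (qs K s w + 2 * qs K 2 w) := by
        refine Finset.prod_le_prod (fun w _ => ?_) (fun w _ => ?_)
        · have := qs_le_half hs.le w
          apply inv_nonneg.mpr; linarith
        · refine (inv_le_exp (qs_pos s w).le (qs_le_half hs.le w)).trans ?_
          apply Real.exp_le_exp.mpr
          have := qs_sq_le hs.le w
          linarith
    _ = Real.exp (∑ w ∈ W, qs K s w + 2 * ∑ w ∈ W, qs K 2 w) := by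
        rw [← Real.exp_sum, Finset.sum_add_distrib, Finset.mul_sum]
    _ ≤ Real.exp (primeSum K s + 2 * primeSum K 2) := by
        apply Real.exp_le_exp.mpr
        have h1 : ∑ w ∈ W, qs K s w ≤ primeSum K s :=
          Summable.sum_le_tsum _ (fun w _ => (qs_pos s w).le) (summable_qs hs)
        have h2 : ∑ w ∈ W, qs K 2 w ≤ primeSum K 2 :=
          Summable.sum_le_tsum _ (fun w _ => (qs_pos 2 w).le) (summable_qs (by norm_num))
        linarith

theorem sub_sq_le_log {x : ℝ} (h0 : 0 ≤ x) : x - x ^ 2 ≤ Real.log (1 + x) := by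
  have hpos : 0 < 1 + x := by linarith
  have hlog := Real.one_sub_inv_le_log_of_pos hpos
  refine le_trans ?_ hlog
  have h2 : (1 + x)⁻¹ ≤ 1 - x + x ^ 2 := by
    rw [inv_le_iff_one_le_mul₀ hpos]
    nlinarith [pow_nonneg h0 3]
  linarith

theorem idealSum_pos {s : ℝ} (hs : 1 < s) : 0 < idealSum K s := by
  have := prod_one_add_le (K := K) hs ∅
  simp only [Finset.prod_empty] at this
  linarith

theorem primeSum_le {s : ℝ} (hs : 1 < s) :
    primeSum K s ≤ Real.log (idealSum K s) + primeSum K 2 := by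
  refine Real.tsum_le_of_sum_le (fun w => (qs_pos s w).le) (fun W => ?_)
  have h1 : ∑ w ∈ W, Real.log (1 + qs K s w) ≤ Real.log (idealSum K s) := by
    rw [← Real.log_prod (fun w _ => by have := qs_pos s w; positivity)]
    apply Real.log_le_log
    · exact Finset.prod_pos fun w _ => by have := qs_pos s w; positivity
    · exact prod_one_add_le hs W
  have h2 : ∑ w ∈ W, qs K s w ≤ ∑ w ∈ W, Real.log (1 + qs K s w) + ∑ w ∈ W, qs K 2 w := by
    rw [← Finset.sum_add_distrib]
    refine Finset.sum_le_sum fun w _ => ?_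
    have h3 := sub_sq_le_log (qs_pos s w).le
    have h4 := qs_sq_le hs.le w
    linarith
  have h3 : ∑ w ∈ W, qs K 2 w ≤ primeSum K 2 :=
    Summable.sum_le_tsum _ (fun w _ => (qs_pos 2 w).le) (summable_qs (by norm_num))
  linarith

theorem primeSum_nonneg (s : ℝ) : 0 ≤ primeSum K s := tsum_nonneg fun w => (qs_pos s w).le

variable (K) in
/-- the prime zeta sum is `log (1/(s-1)) + O(1)` as `s` tends to `1` from above -/
theorem primeSum_asymp : ∃ C : ℝ, ∀ᶠ s : ℝ in 𝓝[>] 1,
    |primeSum K s - Real.log (1 / (s - 1))| ≤ C := by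
  have hρ := dedekindZeta_residue_pos K
  set ρ := dedekindZeta_residue K with hρdef
  have hl : Tendsto (fun s : ℝ => Real.log ((s - 1) * idealSum K s)) (𝓝[>] 1) (𝓝 (Real.log ρ)) :=
    (tendsto_idealSum K).log hρ.ne'
  have hb : ∀ᶠ s : ℝ in 𝓝[>] 1, |Real.log ((s - 1) * idealSum K s)| ≤ |Real.log ρ| + 1 := by
    have := (hl.abs).eventually_le_const (lt_add_one |Real.log ρ|)
    exact this
  refine ⟨|Real.log ρ| + 1 + 2 * primeSum K 2, ?_⟩
  filter_upwards [hb, eventually_mem_nhdsWithin] with s hs hs1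
  have hs1' : (1:ℝ) < s := hs1
  have hpos : 0 < s - 1 := by linarith
  have hsplit : Real.log ((s - 1) * idealSum K s) =
      Real.log (idealSum K s) - Real.log (1 / (s - 1)) := by
    rw [Real.log_mul hpos.ne' (idealSum_pos hs1').ne', one_div, Real.log_inv]
    ring
  rw [hsplit] at hs
  have h1 := primeSum_le (K := K) hs1'
  have h2 : Real.log (idealSum K s) ≤ primeSum K s + 2 * primeSum K 2 := by
    have := idealSum_le (K := K) hs1'
    rwa [← Real.log_le_iff_le_exp (idealSum_pos hs1')] at this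
  have h3 := primeSum_nonneg (K := K) 2
  rw [abs_le] at hs ⊢
  constructor <;> linarith [hs.1, hs.2]

variable (K) in
theorem primeSum_atTop : Tendsto (primeSum K) (𝓝[>] 1) atTop := by
  obtain ⟨C, hC⟩ := primeSum_asymp K
  have hlog : Tendsto (fun s : ℝ => Real.log (1 / (s - 1)) - C) (𝓝[>] 1) atTop := by
    apply tendsto_atTop_add_const_right
    apply Real.tendsto_log_atTop.comp
    simp only [one_div]
    apply tendsto_inv_nhdsGT_zero.comp
    have : Tendsto (fun s : ℝ => s - 1) (𝓝[>] 1) (𝓝[>] (1 - 1)) := by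
      refine tendsto_nhdsWithin_of_tendsto_nhds_of_eventually_within _ ?_ ?_
      · exact ((continuous_id.sub continuous_const).tendsto 1).mono_left nhdsWithin_le_nhds
      · filter_upwards [eventually_mem_nhdsWithin] with s hs
        have : (1:ℝ) < s := hs
        simp only [Set.mem_Ioi]
        linarith
    simpa using this
  refine tendsto_atTop_mono' _ ?_ hlog
  filter_upwards [hC] with s hs
  have := (abs_le.mp hs).1
  linarith

end Pool.Agent.Work.MP_6dc561_nt
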